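import Pool.Agent.Helper70.BTN.Defs
import Pool.Agent.Helper27.BT.Main

/-!
# BTN: the average over the symbols number 0 (NF7)
-/

set_option autoImplicit false
set_option linter.unusedSectionVars false

namespace Pool.Agent.Helper70.BTN

open Finset Pool.Agent.Helper19.NF Pool.Agent.Helper74.NW Pool.Agent.Helper96.BT
open Pool.Agent.Helper74.NE (fine fine_apply)
open Pool.Agent.Helper99.NQ (pos)
open Pool.Agent.Helper96.PH (Det CB opn)
open Pool.Agent.Helper74.NS (Expands)

variable {n D m S : ℕ} [NeZero m] {F B W G Z : Type} [Field F] [Fintype F] [AddCommGroup B] [AddCommGroup W]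
  [Module F W] [Fintype W] [Fintype B] (enc : W →+ (Fin D × Fin m → B))

open Classical in
theorem few_fixz {P : NProg (B × W) F Z S} {M : ℕ} (hM : Few P M) (γ : B → F) : Few (fixz P γ) M := by
  intro I a b L
  have h1 : Nat.card {l : List (B × W) // l.length = L ∧ (fixz P γ).Run I a l b} =
      Nat.card {l : List (B × W) // l.length = L ∧ P.Run (Pool.Agent.Helper27.BT.put γ I) a l b} := by
    refine Nat.card_congr (Equiv.subtypeEquivRight fun l => and_congr_right fun _ => ?_)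
    exact ⟨Pool.Agent.Helper27.BT.run_of_fixz, Pool.Agent.Helper27.BT.fixz_of_run rfl⟩
  rw [h1]
  exact hM _ a b L

/-- NF7: `Helper27.BT.main_bound_of` (the average over `γ`) for programs which are never wrong, from NF6 for
`fixz P γ` (`hG3`); `few_fixz : Few P M → Few (fixz P γ) M`. -/
theorem main_bound_of {m1 M : ℕ} (P : NProg (B × W) F F S) (hM : Few P M) (g : Fin D → Equiv.Perm (Fin n))
    (x0 : Fin n × Fin m → B)
    {h e T a R q d : ℕ} (r : ℝ) {Θ : Type} [Fintype Θ]
    (L : Θ → Fin 2 → List (Fin S × ℕ × Fin S)) (y : Θ → F)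
    (hy : ∀ t I, (∀ j, InC P T (L t j) (fun _ => True) I) → out enc g x0 m1 R I = y t)
    (hG3 : ∀ (P : NProg (B × W) F F S), Few P M → ∀ (γ : B → F) {E : ℝ}, 0 ≤ E →
      (∀ p, n - 2 * a ≤ p → CB γ (Fin p × Fin m1) 3 E) →
      (∀ t I, (∀ j, InC P T (L t j) (fun _ => True) I) → gout enc g x0 m1 R γ I = y t) →
      (Nat.card {I // CF (fine g) x0 R (tab enc I) ∧ ∃ t, ∀ j, InC P T (L t j) (fun _ => True) I} : ℝ) ≤
        ((M : ℝ) ^ (2 * q) * errA n D m a R S q d e r ((h : ℝ) / Fintype.card W) +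
          Fintype.card Θ * (D * m + 1) ^ (2 * n) *
            (2 * (E * (M : ℝ) ^ (2 * q) * (1 / ((h : ℝ) / Fintype.card W)) ^ (4 * n)))) * Nat.card (B × W → F))
    (hG5 : (Nat.card {I : B × W → F // ¬ CF (fine g) x0 R (tab enc I)} : ℝ) ≤
      ((R + 1) * (n * m)) ^ 2 / Fintype.card B * Nat.card (B × W → F)) :
    (Nat.card {I // ∃ t, ∀ j, InC P T (L t j) (fun _ => True) I} : ℝ) ≤
      (((R + 1) * (n * m)) ^ 2 / Fintype.card B +
        Fintype.card F * 2 ^ 4 / Real.sqrt (Fintype.card B) +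
        (M : ℝ) ^ (2 * q) * errA n D m a R S q d e r ((h : ℝ) / Fintype.card W) +
        Fintype.card Θ * (D * m + 1) ^ (2 * n) *
          (2 * ((Fintype.card B : ℝ) ^ (-((n - 2 * a : ℕ) * m1 : ℝ) / 2 ^ 5) * (M : ℝ) ^ (2 * q) *
            (1 / ((h : ℝ) / Fintype.card W)) ^ (4 * n)))) * Nat.card (B × W → F) := by
  classical
  have hk0 : 0 < Fintype.card B := Fintype.card_pos_iff.2 ⟨0⟩
  have hk : (1 : ℝ) ≤ Fintype.card B := by exact_mod_cast hk0
  have hkR : (0 : ℝ) < Fintype.card B := by linarith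
  set E : ℝ := (Fintype.card B : ℝ) ^ (-((n - 2 * a : ℕ) * m1 : ℝ) / 2 ^ 5) with hE
  set N : ℝ := (Nat.card (B × W → F) : ℝ) with hN
  set ρ : ℝ := (h : ℝ) / Fintype.card W with hρ
  have hE0 : 0 ≤ E := Real.rpow_nonneg hkR.le _
  have hN0 : 0 ≤ N := Nat.cast_nonneg _
  have hr0 : 0 ≤ ρ := by positivity
  have hA0 : 0 ≤ errA n D m a R S q d e r ρ := Pool.Agent.Helper27.BT.errA_nonneg
  set A : ℝ := (M : ℝ) ^ (2 * q) * errA n D m a R S q d e r ρ with hA
  have hA1 : 0 ≤ A := by positivity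
  set K : ℝ := Fintype.card Θ * (D * m + 1) ^ (2 * n) * (2 * (E * (M : ℝ) ^ (2 * q) * (1 / ρ) ^ (4 * n))) with hK
  have hK0 : 0 ≤ K := by positivity
  have hbns := Pool.Agent.Helper18.PH.bns2 B F 3
  have h1 := Pool.Agent.Helper4.PH.avg
    (f := fun γ : B → F =>
      (Nat.card {I // ∃ t, ∀ j, InC (fixz P γ) T (L t j) (fun _ => True) I} : ℝ))
    (bad := fun γ : B → F => ¬ ∀ (ι : Type) [Fintype ι],
        CB γ ι 3 ((Fintype.card B : ℝ) ^ (-(Fintype.card ι : ℝ) / 2 ^ (3 + 2)))) N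
    (((R + 1) * (n * m)) ^ 2 / Fintype.card B + (A + K))
    (Fintype.card F * 2 ^ (3 + 1) / Real.sqrt (Fintype.card B)) hN0 (by positivity) (fun γ => ?_)
    (fun γ hγ => ?_) hbns
  · have h2 : ∀ γ : B → F,
        (Nat.card {I // ∃ t, ∀ j, InC (fixz P γ) T (L t j) (fun _ => True) I} : ℝ) =
        Nat.card {I : B × W → F //
          (fun J => ∃ t, ∀ j, InC P T (L t j) (fun _ => True) J) (Pool.Agent.Helper27.BT.put γ I)} := by
      intro γ
      simp only [Pool.Agent.Helper27.BT.inC_fixz]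
    have h5 := Pool.Agent.Helper27.BT.card_put (F := F) (B := B) (W := W)
      (fun J => ∃ t, ∀ j, InC P T (L t j) (fun _ => True) J)
    rw [Finset.sum_congr rfl fun γ _ => h2 γ, ← Nat.cast_sum, h5] at h1
    push_cast at h1
    have hG : (0 : ℝ) < Nat.card (B → F) := by exact_mod_cast Nat.card_pos
    refine le_of_mul_le_mul_left ?_ hG
    refine h1.trans (le_of_eq ?_)
    simp only [Nat.card_eq_fintype_card, hN, hK, hA]
    ring
  · rw [hN]
    exact_mod_cast Nat.card_le_card_of_injective (fun I : {I : B × W → F //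
      ∃ t, ∀ j, InC (fixz P γ) T (L t j) (fun _ => True) I} => I.1) Subtype.val_injective
  · rw [not_not] at hγ
    have h2 : ∀ p, n - 2 * a ≤ p → CB γ (Fin p × Fin m1) 3 E := by
      intro p hp
      refine Pool.Agent.Helper4.PH.CB.mono (hγ (Fin p × Fin m1)) ?_
      rw [hE]
      refine Real.rpow_le_rpow_of_exponent_le hk ?_
      rw [Fintype.card_prod, Fintype.card_fin, Fintype.card_fin, neg_div, neg_div, neg_le_neg_iff]
      push_cast
      have : ((n - 2 * a : ℕ) : ℝ) ≤ p := by exact_mod_cast hp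
      norm_num
      gcongr
    have hy' : ∀ t I, (∀ j, InC (fixz P γ) T (L t j) (fun _ => True) I) → gout enc g x0 m1 R γ I = y t := by
      intro t I hI
      rw [← Pool.Agent.Helper27.BT.out_put]
      exact hy t _ fun j => Pool.Agent.Helper27.BT.inC_fixz.1 (hI j)
    have h3 := hG3 (fixz P γ) (few_fixz hM γ) γ hE0 h2 hy'
    have h5 : (Nat.card {I : B × W → F // ∃ t, ∀ j, InC (fixz P γ) T (L t j) (fun _ => True) I} : ℝ) ≤
        Nat.card {I : B × W → F // ¬ CF (fine g) x0 R (tab enc I)} +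
          Nat.card {I : B × W → F // CF (fine g) x0 R (tab enc I) ∧
            ∃ t, ∀ j, InC (fixz P γ) T (L t j) (fun _ => True) I} := by
      have h6 : {I : B × W → F | ∃ t, ∀ j, InC (fixz P γ) T (L t j) (fun _ => True) I} ⊆
          {I | ¬ CF (fine g) x0 R (tab enc I)} ∪ {I | CF (fine g) x0 R (tab enc I) ∧
            ∃ t, ∀ j, InC (fixz P γ) T (L t j) (fun _ => True) I} := by
        intro I hI
        by_cases hc : CF (fine g) x0 R (tab enc I)
        · exact Or.inr ⟨hc, hI⟩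
        · exact Or.inl hc
      have h7 := (Set.ncard_le_ncard h6 (Set.toFinite _)).trans (Set.ncard_union_le _ _)
      exact_mod_cast h7
    show (Nat.card {I // ∃ t, ∀ j, InC (fixz P γ) T (L t j) (fun _ => True) I} : ℝ) ≤ _
    have h8 : ((M : ℝ) ^ (2 * q) * errA n D m a R S q d e r ρ + Fintype.card Θ * (D * m + 1) ^ (2 * n) *
        (2 * (E * (M : ℝ) ^ (2 * q) * (1 / ρ) ^ (4 * n)))) * N = (A + K) * N := rfl
    rw [h8] at h3
    linarith

end Pool.Agent.Helper70.BTN
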