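import Pool.Agent.Helper70.BTN.Defs
import Pool.Agent.Helper96.BTN.Bad

/-!
# BTN: all types of bad inputs (NF3)
-/

set_option autoImplicit false
set_option linter.unusedSectionVars false

namespace Pool.Agent.Helper70.BTN

open Finset Pool.Agent.Helper19.NF Pool.Agent.Helper74.NW Pool.Agent.Helper96.BT
open Pool.Agent.Helper74.NE (fine fine_apply)
open Pool.Agent.Helper99.NQ (pos)
open Pool.Agent.Helper96.PH (Det CB opn)
open Pool.Agent.Helper74.NS (Expands)

/-- There is at least one list. -/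
theorem Few.one_le {C X Z : Type} {S : ℕ} [Nonempty X] {P : NProg C X Z S} {M : ℕ} (hM : Few P M) : 1 ≤ M := by
  classical
  have x : X := Classical.arbitrary X
  refine le_trans ?_ (hM (fun _ => x) P.start P.start 0)
  haveI : Nonempty {l : List C // l.length = 0 ∧ P.Run (fun _ => x) P.start l P.start} :=
    ⟨⟨[], rfl, NProg.Run.nil _⟩⟩
  haveI : Subsingleton {l : List C // l.length = 0 ∧ P.Run (fun _ => x) P.start l P.start} :=
    ⟨fun a b => Subtype.ext ((List.length_eq_zero_iff.1 a.2.1).trans (List.length_eq_zero_iff.1 b.2.1).symm)⟩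
  exact Nat.card_pos

variable {n D m S : ℕ} [NeZero m] {F B W G Z : Type} [Field F] [Fintype F] [AddCommGroup B] [AddCommGroup W]
  [Module F W] [Fintype W] [Fintype B] (enc : W →+ (Fin D × Fin m → B))

/-- NF3: `Helper92.BT.bad_bound_of`, `bad_bound_of2`, `Helper96.BT.bad_bound`, from NF2 (`(pieces f).length ≤ q`,
`1 ≤ M` from `hM` with `L = 0`); no `Det`. -/
theorem bad_bound (hE : Mds enc (4 * D)) (P : NProg (B × W) F Z S) {M : ℕ} (hM : Few P M)
    (g : Fin D → Equiv.Perm (Fin n))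
    (x0 : Fin n × Fin m → B) (h e T a R q q' d : ℕ) (hX : Expands g a) (ha : 1 ≤ a) (hh : 0 < h)
    (hL : h + 1 ≤ Fintype.card W) (he : e < m) (hq' : q ≤ 2 ^ q') (hR : q' + d ≤ R) (r : ℝ) (hr : 0 < r)
    (hrT : (T : ℝ) ≤ (1 - r) * Fintype.card (B × W))
    (hrh : (m * h + e * Fintype.card W : ℝ) ≤ m * Fintype.card W * r / 2) :
    (Nat.card {I // CF (fine g) x0 R (tab enc I) ∧ ∃ (L : List (Fin S × ℕ × Fin S)) (c : List (B × W)), L.length ≤ q ∧
        (∀ p ∈ L, p.2.1 ≤ 2 ^ d) ∧ RunL P I L c ∧ Fintype.card (B × W) ≤ (free c).card + T ∧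
        a ≤ (comp enc g x0 h e R I (free c)).card} : ℝ) ≤
      (M : ℝ) ^ (2 * q) * errA n D m a R S q d e r ((h : ℝ) / Fintype.card W) * Nat.card (B × W → F) :=
  Pool.Agent.Helper96.BTN.bad_bound enc hE P (fun I a b k => hM I a b k) hM.one_le g x0 h e T a R q q' d hX ha hh hL he
    hq' hR r hr hrT hrh

end Pool.Agent.Helper70.BTN
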