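import Pool.Agent.Helper27.BT.Cyl
import Pool.Agent.Helper74.NS.Defs

/-!
# BTN: the game from one base point (NF4a)
-/

set_option autoImplicit false
set_option linter.unusedSectionVars false

namespace Pool.Agent.Helper70.BTN

open Finset Pool.Agent.Helper19.NF Pool.Agent.Helper74.NW Pool.Agent.Helper96.BT
open Pool.Agent.Helper74.NE (fine fine_apply)
open Pool.Agent.Helper99.NQ (pos)
open Pool.Agent.Helper96.PH (Det CB opn)
open Pool.Agent.Helper74.NS (Expands)

variable {n D m S : ℕ} [NeZero m] {F B W G Z : Type} [Field F] [Fintype F] [AddCommGroup B] [AddCommGroup W]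
  [Module F W] [Fintype W] [Fintype B] (enc : W →+ (Fin D × Fin m → B))

open Classical in
/-- NF4a: the step `hone` of `Helper27.BT.cyl_bound` for one base point `x1`, with arbitrary conditions `Cyl l` which do
not depend on the place of the player `l` (`compare`, `shift`, `lam_shift`, `hγ`). -/
theorem one_base [AddCommGroup G] [Fintype G] {N m1 : ℕ} (hE : Mds enc (D * m1)) (hm1 : m1 ≤ m)
    (g : Fin D → Equiv.Perm (Fin n)) (hh : Fin (N + 1) → Fin n → Fin D × Fin m) (t0 : Fin n × Fin m → B)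
    (K : Finset (Fin n)) (γ : B → G) {δ : ℝ} (hγ : CB γ (Fin K.card × Fin m1) N δ) (z : G) (x1 : Ch n m F W)
    (Cyl : Fin (N + 1) → (Fin (N + 1) → Fin n → W) → Prop)
    (hCyl : ∀ l Y y, Cyl l Y → Cyl l (Function.update Y l y)) :
    (Nat.card {Y : Fin (N + 1) → Fin n → W // (∀ l, Cyl l Y) ∧
        ∑ v ∈ univ.filter (fun v : Fin n × Fin m => v.2.val < m1),
          γ (t0 v + lam enc g (x1 + ∑ l, flip (F := F) g (hh l) K (Y l)) v) = z} : ℝ) ≤
      Nat.card {Y : Fin (N + 1) → Fin n → W // ∀ l, Cyl l Y} / Fintype.card G +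
        δ * Fintype.card (Fin (N + 1) → Fin n → W) := by
  classical
  let κ := K.equivFin
  let ext : (Fin K.card × Fin m1 → B) → (Fin n × Fin m → B) :=
    fun y v => if hv : v.1 ∈ K ∧ v.2.val < m1 then y (κ ⟨v.1, hv.1⟩, ⟨v.2.val, hv.2⟩) else 0
  let τ : (Fin (N + 1) → Fin K.card × Fin m1 → B) → (Fin (N + 1) → Fin n → W) :=
    fun y l => Pool.Agent.Helper27.BT.shift enc m1 (hh l) (ext (y l))
  let pp : Fin K.card × Fin m1 → Fin n × Fin m := fun c => ((κ.symm c.1).1, Fin.castLE hm1 c.2)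
  let Dd : Fin (N + 1) → (Fin n → W) → Ch n m F W := fun l Y => flip (F := F) g (hh l) K Y
  let XX : (Fin (N + 1) → Fin n → W) → Ch n m F W := fun Y => x1 + ∑ l, Dd l (Y l)
  let f : Ch n m F W → G := fun x =>
    ∑ v ∈ univ.filter (fun v : Fin n × Fin m => v.2.val < m1), γ (t0 v + lam enc g x v)
  show (Nat.card {Y : Fin (N + 1) → Fin n → W // (∀ l, Cyl l Y) ∧ f (XX Y) = z} : ℝ) ≤ _
  refine Pool.Agent.Helper27.BT.compare τ _ _ _ _ fun b => ?_
  let base : Fin n × Fin m → B := fun v => t0 v + lam enc g x1 v + ∑ l, lam enc g (Dd l (b l)) v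
  have hlam : ∀ (y : Fin (N + 1) → Fin K.card × Fin m1 → B) (v : Fin n × Fin m), v.2.val < m1 →
      t0 v + lam enc g (XX (b + τ y)) v = base v + ∑ l, if v.1 ∈ K then ext (y l) v else 0 := by
    rintro y ⟨u, t⟩ ht
    have h1 : XX (b + τ y) = x1 + ∑ l, Dd l ((b + τ y) l) := rfl
    rw [h1, Pool.Agent.Helper27.BT.lam_add, Pool.Agent.Helper27.BT.lam_sum]
    have h2 : ∀ l, lam enc g (Dd l ((b + τ y) l)) (u, t) = lam enc g (Dd l (b l)) (u, t) +
        if u ∈ K then ext (y l) (u, t) else 0 := by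
      intro l
      have h3 : Dd l ((b + τ y) l) = flip (F := F) g (hh l) K (b l + τ y l) := rfl
      have h4 : Dd l (b l) = flip (F := F) g (hh l) K (b l) := rfl
      rw [h3, h4, Pool.Agent.Helper27.BT.lam_flip_add]
      congr 1
      exact Pool.Agent.Helper27.BT.lam_shift enc hE hm1 g (hh l) K (ext (y l)) u t ht
    rw [sum_congr rfl fun l _ => h2 l, sum_add_distrib]
    show t0 (u, t) + (lam enc g x1 (u, t) + (_ + _)) = t0 (u, t) + lam enc g x1 (u, t) + _ + _
    abel
  have hin : ∀ (y : Fin (N + 1) → Fin K.card × Fin m1 → B) (c : Fin K.card × Fin m1),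
      t0 (pp c) + lam enc g (XX (b + τ y)) (pp c) = base (pp c) + ∑ l, y l c := by
    intro y c
    have h1 : (pp c).1 ∈ K := (κ.symm c.1).2
    have h2 : (pp c).2.val < m1 := c.2.isLt
    rw [hlam y _ h2]
    congr 1
    refine sum_congr rfl fun l _ => ?_
    rw [if_pos h1]
    show (if hv : (pp c).1 ∈ K ∧ (pp c).2.val < m1 then y l (κ ⟨(pp c).1, hv.1⟩, ⟨(pp c).2.val, hv.2⟩) else 0) = _
    rw [dif_pos ⟨h1, h2⟩]
    congr 1
    refine Prod.ext ?_ rfl
    show κ (κ.symm c.1) = c.1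
    exact κ.apply_symm_apply _
  have hout : ∀ (y : Fin (N + 1) → Fin K.card × Fin m1 → B) (v : Fin n × Fin m), v.2.val < m1 →
      v.1 ∉ K → t0 v + lam enc g (XX (b + τ y)) v = base v := by
    intro y v hv hK
    rw [hlam y v hv]
    have h1 : (∑ l : Fin (N + 1), if v.1 ∈ K then ext (y l) v else 0) = 0 :=
      sum_eq_zero fun l _ => if_neg hK
    rw [h1, add_zero]
  obtain ⟨S1, hS1⟩ : ∃ S1 : Finset (Fin n × Fin m), S1 = univ.filter (fun v => v.2.val < m1) := ⟨_, rfl⟩
  have hf : ∀ y : Fin (N + 1) → Fin K.card × Fin m1 → B, f (XX (b + τ y)) = z ↔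
      ∑ c : Fin K.card × Fin m1, γ (base (pp c) + ∑ l, y l c) =
        z - ∑ v ∈ S1.filter (fun v => ¬ v.1 ∈ K), γ (base v) := by
    intro y
    have h1 : f (XX (b + τ y)) = ∑ v ∈ S1.filter (fun v => v.1 ∈ K), γ (t0 v + lam enc g (XX (b + τ y)) v) +
        ∑ v ∈ S1.filter (fun v => ¬ v.1 ∈ K), γ (t0 v + lam enc g (XX (b + τ y)) v) := by
      rw [sum_filter_add_sum_filter_not, hS1]
    have h2 : ∑ v ∈ S1.filter (fun v => ¬ v.1 ∈ K), γ (t0 v + lam enc g (XX (b + τ y)) v) =
        ∑ v ∈ S1.filter (fun v => ¬ v.1 ∈ K), γ (base v) := by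
      refine sum_congr rfl fun v hv => ?_
      rw [hS1, mem_filter, mem_filter] at hv
      rw [hout y v hv.1.2 hv.2]
    have h3 : ∑ v ∈ S1.filter (fun v => v.1 ∈ K), γ (t0 v + lam enc g (XX (b + τ y)) v) =
        ∑ c : Fin K.card × Fin m1, γ (base (pp c) + ∑ l, y l c) := by
      symm
      refine sum_bij (fun c _ => pp c) ?_ ?_ ?_ ?_
      · intro c _
        rw [hS1, mem_filter, mem_filter]
        exact ⟨⟨mem_univ _, c.2.isLt⟩, (κ.symm c.1).2⟩
      · intro c _ c' _ hc
        have h4 : ((κ.symm c.1).1, Fin.castLE hm1 c.2) = ((κ.symm c'.1).1, Fin.castLE hm1 c'.2) := hc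
        obtain ⟨h5, h6⟩ := Prod.ext_iff.1 h4
        exact Prod.ext (κ.symm.injective (Subtype.ext h5)) (Fin.castLE_injective hm1 h6)
      · rintro ⟨u, t⟩ hv
        rw [hS1, mem_filter, mem_filter] at hv
        refine ⟨(κ ⟨u, hv.2⟩, ⟨t.val, hv.1.2⟩), mem_univ _, ?_⟩
        show ((κ.symm (κ ⟨u, hv.2⟩)).1, Fin.castLE hm1 ⟨t.val, hv.1.2⟩) = (u, t)
        rw [Equiv.symm_apply_apply]
        rfl
      · intro c _
        rw [hin y c]
    rw [h1, h2, h3, eq_sub_iff_add_eq]
  have key := hγ (fun c => base (pp c)) (fun l => {y | Cyl l (b + τ y)}) ?_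
    (z - ∑ v ∈ S1.filter (fun v => ¬ v.1 ∈ K), γ (base v))
  · have h1 : Nat.card {y // (∀ l, Cyl l (b + τ y)) ∧ f (XX (b + τ y)) = z} =
        Nat.card {y : Fin (N + 1) → Fin K.card × Fin m1 → B // (∀ l, y ∈ {y | Cyl l (b + τ y)}) ∧
          ∑ c, γ (base (pp c) + ∑ l, y l c) =
            z - ∑ v ∈ S1.filter (fun v => ¬ v.1 ∈ K), γ (base v)} :=
      Nat.card_congr (Equiv.subtypeEquivRight fun y => and_congr_right fun _ => hf y)
    rw [h1]
    refine key.trans (le_of_eq ?_)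
    rw [Nat.card_eq_fintype_card (α := G), Nat.card_eq_fintype_card (α := Fin (N + 1) → Fin K.card × Fin m1 → B)]
    rfl
  · intro l y y' hy
    have hy' : Cyl l (b + τ y) := hy
    have h1 : b + τ (Function.update y l y') = Function.update (b + τ y) l ((b + τ (Function.update y l y')) l) := by
      funext l'
      by_cases hl' : l' = l
      · subst hl'
        rw [Function.update_self]
      · rw [Function.update_of_ne hl']
        show b l' + Pool.Agent.Helper27.BT.shift enc m1 (hh l') (ext (Function.update y l y' l')) =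
          b l' + Pool.Agent.Helper27.BT.shift enc m1 (hh l') (ext (y l'))
        rw [Function.update_of_ne hl']
    show Cyl l (b + τ (Function.update y l y'))
    rw [h1]
    exact hCyl l _ _ hy'

end Pool.Agent.Helper70.BTN
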