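import Pool.Agent.Helper70.BTN.Defs
import Pool.Agent.Helper18.BT.Class

/-!
# BTN: all classes (NF6)
-/

set_option autoImplicit false
set_option linter.unusedSectionVars false

namespace Pool.Agent.Helper70.BTN

open Finset Pool.Agent.Helper19.NF Pool.Agent.Helper74.NW Pool.Agent.Helper96.BT
open Pool.Agent.Helper74.NE (fine fine_apply)
open Pool.Agent.Helper99.NQ (pos)
open Pool.Agent.Helper96.PH (Det CB opn)
open Pool.Agent.Helper74.NS (Expands)

variable {n D m S : ℕ} [NeZero m] {F B W G Z : Type} [Field F] [Fintype F] [AddCommGroup B] [AddCommGroup W]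
  [Module F W] [Fintype W] [Fintype B] (enc : W →+ (Fin D × Fin m → B))

open Classical in
/-- One class and one type: the number of the inputs is at most the sum of the products, hence at most `2 E` times
the number of all inputs. -/
theorem type_card_le [Fintype G] [AddCommGroup G] {m1 : ℕ}
    (P : NProg (B × W) F Z S) (g : Fin D → Equiv.Perm (Fin n)) (x0 : Fin n × Fin m → B)
    {h T R : ℕ} (γ : B → G) (hG : 2 ≤ Fintype.card G)
    (L : Fin 2 → List (Fin S × ℕ × Fin S)) (τ : Fin 2 → Fin n → Option (Fin D × Fin m)) (y : G) {E : ℝ}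
    (hy : ∀ I, (∀ j, InC P T (L j) (fun _ => True) I) → gout enc g x0 m1 R γ I = y)
    (ht : ∑ I ∈ univ.filter (fun I : B × W → F => CF (fine g) x0 R (tab enc I) ∧ gout enc g x0 m1 R γ I = y),
        ∏ j, ((QS P enc g x0 h T R (L j) (τ j) I).card : ℝ) ≤
      (∑ I ∈ univ.filter (fun I : B × W → F => CF (fine g) x0 R (tab enc I)),
        ∏ j, ((QS P enc g x0 h T R (L j) (τ j) I).card : ℝ)) / Fintype.card G + E * Nat.card (B × W → F)) :
    (Nat.card {I : B × W → F // CF (fine g) x0 R (tab enc I) ∧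
      ∀ j, (QS P enc g x0 h T R (L j) (τ j) I).Nonempty} : ℝ) ≤ 2 * E * Nat.card (B × W → F) := by
  set f : (B × W → F) → ℝ := fun I => ∏ j, ((QS P enc g x0 h T R (L j) (τ j) I).card : ℝ) with hf
  have hf0 : ∀ I, 0 ≤ f I := fun I => Finset.prod_nonneg fun j _ => Nat.cast_nonneg _
  have hz : ∀ I, f I ≠ 0 → gout enc g x0 m1 R γ I = y := by
    intro I hI
    refine hy I fun j => ?_
    have h1 := (Finset.prod_ne_zero_iff.1 hI) j (Finset.mem_univ _)
    have h2 : (QS P enc g x0 h T R (L j) (τ j) I).card ≠ 0 := by exact_mod_cast h1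
    obtain ⟨V, hV⟩ := Finset.card_ne_zero.1 h2
    obtain ⟨⟨c, hc, hcV⟩, h3, -⟩ := mem_QS.1 hV
    exact ⟨c, hc, trivial, by rw [hcV]; exact h3⟩
  set A : ℝ := ∑ I ∈ univ.filter (fun I : B × W → F => CF (fine g) x0 R (tab enc I)), f I with hA
  have hA1 : ∑ I ∈ univ.filter (fun I : B × W → F => CF (fine g) x0 R (tab enc I) ∧
      gout enc g x0 m1 R γ I = y), f I = A := by
    rw [hA]
    refine Finset.sum_subset ?_ ?_
    · intro I hI
      rw [Finset.mem_filter] at hI ⊢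
      exact ⟨hI.1, hI.2.1⟩
    · intro I hI hI2
      by_contra h3
      rw [Finset.mem_filter] at hI hI2
      exact hI2 ⟨hI.1, hI.2, hz I h3⟩
  have hA0 : 0 ≤ A := Finset.sum_nonneg fun I _ => hf0 I
  have ht' : A ≤ A / Fintype.card G + E * Nat.card (B × W → F) := by
    rw [hA1] at ht
    exact ht
  have hG' : (2 : ℝ) ≤ Fintype.card G := by exact_mod_cast hG
  have hA2 : A / Fintype.card G ≤ A / 2 := div_le_div_of_nonneg_left hA0 (by norm_num) hG'
  have hA3 : A ≤ 2 * E * Nat.card (B × W → F) := by linarith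
  refine le_trans ?_ hA3
  rw [Nat.card_eq_fintype_card, Fintype.card_subtype, Finset.card_eq_sum_ones, Nat.cast_sum, hA]
  have hsub : univ.filter (fun I : B × W → F => CF (fine g) x0 R (tab enc I) ∧
      ∀ j, (QS P enc g x0 h T R (L j) (τ j) I).Nonempty) ⊆
      univ.filter (fun I : B × W → F => CF (fine g) x0 R (tab enc I)) := by
    intro I hI
    rw [Finset.mem_filter] at hI ⊢
    exact ⟨hI.1, hI.2.1⟩
  refine le_trans (Finset.sum_le_sum fun I hI => ?_)
    (Finset.sum_le_sum_of_subset_of_nonneg hsub fun I _ _ => hf0 I)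
  rw [Finset.mem_filter] at hI
  have h1 : (1 : ℕ) ≤ ∏ j, (QS P enc g x0 h T R (L j) (τ j) I).card :=
    Nat.one_le_iff_ne_zero.2 (Finset.prod_ne_zero_iff.2 fun j _ => Finset.card_ne_zero.2 (hI.2.2 j))
  have h2 : (1 : ℝ) ≤ ∏ j, ((QS P enc g x0 h T R (L j) (τ j) I).card : ℝ) := by exact_mod_cast h1
  rw [Nat.cast_one]
  exact h2

/-- NF6: `Helper18.BT.class_bound_of` for programs which are never wrong, from NF3 (`hbad`) and NF5 (`htype`): for a
class `t` and a type `τ` the result is `y t` wherever the product is not `0`, so the sum of the products is at most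
`2 * E * card`, because `2 ≤ Fintype.card G`. -/
theorem class_bound_of [Fintype G] [AddCommGroup G] {m1 : ℕ}
    (P : NProg (B × W) F Z S) (g : Fin D → Equiv.Perm (Fin n)) (x0 : Fin n × Fin m → B)
    {h e T a R q d N : ℕ} (γ : B → G) (hG : 2 ≤ Fintype.card G) (hN : N + 2 * a ≤ n) {Θ : Type} [Fintype Θ]
    (L : Θ → Fin 2 → List (Fin S × ℕ × Fin S)) (y : Θ → G)
    (hLq : ∀ t j, (L t j).length ≤ q) (hLd : ∀ t j, ∀ p ∈ L t j, p.2.1 ≤ 2 ^ d) {e1 E : ℝ} (hE0 : 0 ≤ E)
    (hy : ∀ t I, (∀ j, InC P T (L t j) (fun _ => True) I) → gout enc g x0 m1 R γ I = y t)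
    (hbad : (Nat.card {I // CF (fine g) x0 R (tab enc I) ∧ ∃ (L : List (Fin S × ℕ × Fin S)) (c : List (B × W)),
        L.length ≤ q ∧ (∀ p ∈ L, p.2.1 ≤ 2 ^ d) ∧ RunL P I L c ∧ Fintype.card (B × W) ≤ (free c).card + T ∧
        a ≤ (comp enc g x0 h e R I (free c)).card} : ℝ) ≤ e1 * Nat.card (B × W → F))
    (htype : open Classical in ∀ (L : Fin 2 → List (Fin S × ℕ × Fin S)) (τ : Fin 2 → Fin n → Option (Fin D × Fin m))
      (z : G), (∀ j, (L j).length ≤ q) → N ≤ (opn (w := 1) τ).card →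
      ∑ I ∈ univ.filter (fun I : B × W → F => CF (fine g) x0 R (tab enc I) ∧ gout enc g x0 m1 R γ I = z),
        ∏ j, ((QS P enc g x0 h T R (L j) (τ j) I).card : ℝ) ≤
      (∑ I ∈ univ.filter (fun I : B × W → F => CF (fine g) x0 R (tab enc I)),
        ∏ j, ((QS P enc g x0 h T R (L j) (τ j) I).card : ℝ)) / Fintype.card G + E * Nat.card (B × W → F)) :
    (Nat.card {I // CF (fine g) x0 R (tab enc I) ∧ ∃ t, ∀ j, InC P T (L t j) (fun _ => True) I} : ℝ) ≤
      (e1 + Fintype.card Θ * (D * m + 1) ^ (2 * n) * (2 * E)) * Nat.card (B × W → F) := by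
  classical
  have hcov : ∀ I : B × W → F, (CF (fine g) x0 R (tab enc I) ∧ ∃ t, ∀ j, InC P T (L t j) (fun _ => True) I) →
      (CF (fine g) x0 R (tab enc I) ∧ ∃ (L : List (Fin S × ℕ × Fin S)) (c : List (B × W)),
        L.length ≤ q ∧ (∀ p ∈ L, p.2.1 ≤ 2 ^ d) ∧ RunL P I L c ∧ Fintype.card (B × W) ≤ (free c).card + T ∧
        a ≤ (comp enc g x0 h e R I (free c)).card) ∨
      ∃ θ : Θ × Helper18.BT.Mt D m n N, CF (fine g) x0 R (tab enc I) ∧
        ∀ j, (QS P enc g x0 h T R (L θ.1 j) (θ.2.1 j) I).Nonempty := by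
    rintro I ⟨hI, t, hC⟩
    choose c hc1 hc2 hc3 using hC
    by_cases hc : ∃ j : Fin 2, a ≤ (comp enc g x0 h e R I (free (c j))).card
    · obtain ⟨j, hj⟩ := hc
      exact Or.inl ⟨hI, L t j, c j, hLq t j, hLd t j, hc1 j, hc3 j, hj⟩
    · push Not at hc
      have h4 := Helper18.BT.opn_card (fun j : Fin (1 + 1) => free (c j)) hc
      have h3 : N ≤ (opn (fun (j : Fin (1 + 1)) v => miss enc g x0 h R I (free (c j)) v)).card := by omega
      exact Or.inr ⟨(t, ⟨_, h3⟩), hI, fun j => ⟨free (c j), mem_QS.2 ⟨⟨c j, hc1 j, rfl⟩, hc3 j, fun v => rfl⟩⟩⟩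
  have h1 := Helper78.PH.card_le_add_sum hcov
  have h2 : (Nat.card {I // CF (fine g) x0 R (tab enc I) ∧ ∃ t, ∀ j, InC P T (L t j) (fun _ => True) I} : ℝ) ≤
      (Nat.card {I // CF (fine g) x0 R (tab enc I) ∧ ∃ (L : List (Fin S × ℕ × Fin S)) (c : List (B × W)),
        L.length ≤ q ∧ (∀ p ∈ L, p.2.1 ≤ 2 ^ d) ∧ RunL P I L c ∧ Fintype.card (B × W) ≤ (free c).card + T ∧
        a ≤ (comp enc g x0 h e R I (free c)).card} : ℝ) +
        ∑ θ : Θ × Helper18.BT.Mt D m n N, (Nat.card {I : B × W → F // CF (fine g) x0 R (tab enc I) ∧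
          ∀ j, (QS P enc g x0 h T R (L θ.1 j) (θ.2.1 j) I).Nonempty} : ℝ) := by
    exact_mod_cast h1
  refine h2.trans ?_
  have h3 : ∑ θ : Θ × Helper18.BT.Mt D m n N, (Nat.card {I : B × W → F // CF (fine g) x0 R (tab enc I) ∧
          ∀ j, (QS P enc g x0 h T R (L θ.1 j) (θ.2.1 j) I).Nonempty} : ℝ) ≤
      Fintype.card Θ * (D * m + 1) ^ (2 * n) * (2 * E) * Nat.card (B × W → F) := by
    calc _ ≤ ∑ _θ : Θ × Helper18.BT.Mt D m n N, 2 * E * (Nat.card (B × W → F) : ℝ) :=
          Finset.sum_le_sum fun θ _ => type_card_le enc P g x0 γ hG (L θ.1) θ.2.1 (y θ.1) (hy θ.1)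
            (htype (L θ.1) θ.2.1 (y θ.1) (hLq θ.1) θ.2.2)
      _ = (Fintype.card Θ * Nat.card (Helper18.BT.Mt D m n N)) * (2 * E * Nat.card (B × W → F)) := by
          rw [Finset.sum_const, Finset.card_univ, nsmul_eq_mul, Fintype.card_prod,
            Nat.card_eq_fintype_card (α := Helper18.BT.Mt D m n N), Nat.cast_mul]
      _ ≤ (Fintype.card Θ * (D * m + 1) ^ (2 * n)) * (2 * E * Nat.card (B × W → F)) := by
          have h6 : (Nat.card (Helper18.BT.Mt D m n N) : ℝ) ≤ (D * m + 1) ^ (2 * n) := by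
            exact_mod_cast Helper18.BT.card_Mt (D := D) (m := m) n N
          have h7 : (0 : ℝ) ≤ 2 * E * Nat.card (B × W → F) := by positivity
          exact mul_le_mul_of_nonneg_right (mul_le_mul_of_nonneg_left h6 (Nat.cast_nonneg _)) h7
      _ = _ := by ring
  calc _ ≤ e1 * Nat.card (B × W → F) +
        Fintype.card Θ * (D * m + 1) ^ (2 * n) * (2 * E) * Nat.card (B × W → F) := add_le_add hbad h3
    _ = _ := by ring

end Pool.Agent.Helper70.BTN
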