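import Pool.Agent.Helper70.BTN.Loops
import Pool.Agent.Helper99.BT.Asm
import Pool.Agent.Helper45.BT.OneList
import Pool.Agent.Helper97.BT.Beta
import Pool.Agent.Helper45.BT.Samples

/-!
# BTN: the types of rare computations (NF8)
-/

set_option autoImplicit false
set_option linter.unusedSectionVars false

namespace Pool.Agent.Helper70.BTN

open Finset Pool.Agent.Helper19.NF Pool.Agent.Helper74.NW Pool.Agent.Helper96.BT
open Pool.Agent.Helper74.NE (fine fine_apply)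
open Pool.Agent.Helper99.NQ (pos)
open Pool.Agent.Helper96.PH (Det CB opn)
open Pool.Agent.Helper74.NS (Expands)

/-- A rare list has cut points and a side such that both sides leave all but `T` symbols unread. -/
private theorem cover_list {C : Type} [Fintype C] [Nonempty C] {q w T d : ℕ} {ε θ : ℝ} (h0 : 0 < ε) (h1 : ε ≤ 1)
    (hθ0 : 0 < θ) (hθ1 : θ < 1)
    (hqN : q ≤ Fintype.card C) (hT : (Fintype.card C : ℝ) ≤ T + ε / (4 * 2 ^ w) * Fintype.card C)
    (hq : (10 ^ 6 : ℝ) * 2 ^ w * (w + 1) * (d + 1 / θ) ^ 2 / (ε ^ 2 * θ) ≤ q) (l : List C)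
    (hl : l.length ≤ 2 ^ d) (hr : Rare ε w l) :
    ∃ (b : ℕ → ℕ) (A : Finset (Fin ((w + 1) * q + 1))), Monotone b ∧ b 0 = 0 ∧ b ((w + 1) * q + 1) = l.length ∧
      Fintype.card C ≤ (free (Pool.Agent.Helper99.BT.partb A b l)).card + T ∧
        Fintype.card C ≤ (free (Pool.Agent.Helper99.BT.partb Aᶜ b l)).card + T := by
  classical
  have hq0 : 0 < q := by
    have h2 : (0 : ℝ) < (10 ^ 6 : ℝ) * 2 ^ w * (w + 1) * (d + 1 / θ) ^ 2 / (ε ^ 2 * θ) := by positivity
    exact_mod_cast h2.trans_le hq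
  have hT' : (Fintype.card C : ℝ) ≤ T + ε * Fintype.card C / (2 * 2 ^ w) := by
    refine hT.trans (add_le_add le_rfl ?_)
    rw [div_mul_eq_mul_div]
    refine div_le_div_of_nonneg_left (by positivity) (by positivity) ?_
    have : (0 : ℝ) < 2 ^ w := by positivity
    linarith
  obtain ⟨E, hE0, hE, hβ⟩ := Pool.Agent.Helper97.BT.beta_le (N := Fintype.card C) (q := q) (w := w) (d := d) h0 h1
    hθ0 hθ1.le hqN hq
  have h2 := Pool.Agent.Helper45.BT.one_list (q := q) (w := w) (T := T) (d := d) hq0 hE0 hE h0 hT' l hl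
  have h3 : (0 : ℝ) < Nat.card ((Fin q → C) × Finset (Fin ((w + 1) * q + 1))) := by
    rw [Nat.card_eq_fintype_card]
    exact_mod_cast Fintype.card_pos
  have h4 : ∃ p : (Fin q → C) × Finset (Fin ((w + 1) * q + 1)),
      Pool.Agent.Helper99.BT.GoodH p.1 w T (3 / 4 * ε * q) p.2 l := by
    by_contra hno
    push Not at hno
    have h5 : (Nat.card {p : (Fin q → C) × Finset (Fin ((w + 1) * q + 1)) //
        (Rare ε w l ∧ ¬ Pool.Agent.Helper99.BT.GoodH p.1 w T (3 / 4 * ε * q) p.2 l) ∨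
        (Pool.Agent.Helper99.BT.GoodH p.1 w T (3 / 4 * ε * q) p.2 l ∧ ¬ Rare (ε / 2) w l)}) =
        Nat.card ((Fin q → C) × Finset (Fin ((w + 1) * q + 1))) :=
      Nat.card_congr (Equiv.subtypeUnivEquiv fun p => Or.inl ⟨hr, hno p⟩)
    rw [h5] at h2
    have h6 := h2.trans (mul_le_mul_of_nonneg_right hβ h3.le)
    nlinarith
  obtain ⟨⟨H, A⟩, -, hg1, hg2⟩ := h4
  obtain ⟨hadm, hJ, -⟩ := Pool.Agent.Helper27.BT.adm_cutp (H := H) (w := w) (J := (w + 1) * q + 1) (Nat.lt_succ_self _) l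
  exact ⟨Pool.Agent.Helper99.BT.cutp H w l, A, hadm.mono, hadm.b0, hJ, hg1, hg2⟩

/-- `Rare` goes to sublists. -/
private theorem rare_sub {C : Type} [Fintype C] {ε : ℝ} {w : ℕ} {l l' : List C} (h : l'.Sublist l)
    (hr : Rare ε w l) : Rare ε w l' := by
  classical
  obtain ⟨X, h1, h2⟩ := hr
  refine ⟨X, h1, fun z hz => ?_⟩
  refine le_trans ?_ (h2 z hz)
  convert h.count_le z

/-- The types: a side, cut points, states. -/
private abbrev Tp (S J d : ℕ) : Type := Finset (Fin J) × (Fin (J + 1) → Fin (2 ^ d + 1)) × (Fin (J + 1) → Fin S)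

/-- The cut points of a type. -/
private def bt {S J d : ℕ} (t : Tp S J d) (j : ℕ) : ℕ := t.2.1 ⟨min j J, Nat.lt_succ_of_le (min_le_right j J)⟩

private theorem bt_le {S J d : ℕ} (t : Tp S J d) (j : ℕ) : bt t j ≤ 2 ^ d := Nat.le_of_lt_succ (t.2.1 _).isLt

/-- NF8: the types `(A, b, σ)`. For a list `l` with `l.length ≤ 2 ^ d` the bad pairs `(H, A)` of `one_list`
(of helper45, helper43; the numbers are `Helper97.BT.beta_le`) are less than all pairs, so
there is a good pair; `b = cutp H w l`, states by `Helper70.BT.runL_side`, back by `Helper70.BT.run_of_sides`. NF9 for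
longer lists (`Rare` goes to sublists). `A : Finset (Fin J)`, `b : Fin (J + 1) → Fin (2 ^ d + 1)` monotone with `b 0 = 0`,
`σ : Fin (J + 1) → Fin S` with `σ 0 = P.start`, `P.act (σ J) = Sum.inr y`; `J = (w + 1) * q + 1`. -/
theorem cover {C X Z : Type} [Fintype C] [Nonempty C] {S d : ℕ} (P : NProg C X Z S)
    (hS : S ≤ 2 ^ d) {w q T : ℕ} {ε θ : ℝ} (h0 : 0 < ε) (h1 : ε ≤ 1) (hθ0 : 0 < θ) (hθ1 : θ < 1)
    (hqN : q ≤ Fintype.card C)
    (hT : (Fintype.card C : ℝ) ≤ T + ε / (4 * 2 ^ w) * Fintype.card C)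
    (hq : (10 ^ 6 : ℝ) * 2 ^ w * (w + 1) * (d + 1 / θ) ^ 2 / (ε ^ 2 * θ) ≤ q) :
    ∃ (Θ : Type) (_ : Fintype Θ) (L : Θ → Fin 2 → List (Fin S × ℕ × Fin S)) (y : Θ → Z),
      Fintype.card Θ ≤ (2 * (S * (2 ^ d + 1))) ^ ((w + 1) * q + 2) ∧
      (∀ t j, (L t j).length ≤ (w + 1) * q + 1) ∧ (∀ t j, ∀ p ∈ L t j, p.2.1 ≤ 2 ^ d) ∧
      (∀ t I, (∀ j, InC P T (L t j) (fun _ => True) I) → ∃ l, P.Ends I l (y t)) ∧
      ∀ (I : C → X) (l : List C) (z : Z), P.Ends I l z → Rare ε w l →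
        ∃ t, ∀ j, InC P T (L t j) (fun _ => True) I := by
  classical
  obtain ⟨J, hJ⟩ : ∃ J, J = (w + 1) * q + 1 := ⟨_, rfl⟩
  let Ok : Tp S J d → Prop := fun t => Monotone (bt t) ∧ bt t 0 = 0 ∧ t.2.2 0 = P.start ∧
    ∃ z, P.act (t.2.2 (Fin.last J)) = Sum.inr z
  refine ⟨{t : Tp S J d // Ok t}, inferInstance,
    fun t j => Pool.Agent.Helper99.BT.sideb (Pool.Agent.Helper99.BT.Asm.sd t.1.1 j) (bt t.1) t.1.2.2,
    fun t => t.2.2.2.2.choose, ?_, fun t j => (Pool.Agent.Helper99.BT.Asm.length_side _ _ _).trans hJ.le, ?_, ?_, ?_⟩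
  · refine (Fintype.card_subtype_le _).trans ?_
    have h2 : (w + 1) * q + 2 = J + 1 := by omega
    rw [h2]
    simp only [Fintype.card_prod, Fintype.card_fun, Fintype.card_fin, Fintype.card_finset]
    rw [mul_pow, mul_pow, mul_comm ((2 ^ d + 1) ^ (J + 1))]
    exact Nat.mul_le_mul_right _ (Nat.pow_le_pow_right (by norm_num) (Nat.le_succ J))
  · intro t j p hp
    unfold Pool.Agent.Helper99.BT.sideb at hp
    rw [List.mem_map] at hp
    obtain ⟨j', -, rfl⟩ := hp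
    exact (Nat.sub_le _ _).trans (bt_le t.1 _)
  · intro t I h
    obtain ⟨c, hc, -, -⟩ := h 0
    obtain ⟨c', hc', -, -⟩ := h 1
    have e0 : Pool.Agent.Helper99.BT.Asm.sd t.1.1 0 = t.1.1 := if_pos rfl
    have e1 : Pool.Agent.Helper99.BT.Asm.sd t.1.1 1 = t.1.1ᶜ := if_neg (by decide)
    beta_reduce at hc hc'
    rw [e0] at hc
    rw [e1] at hc'
    obtain ⟨l, hr, -, -, -⟩ := Pool.Agent.Helper70.BT.Seg.run_of_sides t.2.1 t.2.2.1 hc hc'
    exact ⟨l, _, t.2.2.2.1 ▸ hr, t.2.2.2.2.choose_spec⟩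
  · rintro I l z ⟨s, hrun, hs⟩ hrare
    obtain ⟨l', hsub, hlen, hrun'⟩ := cut_loops hrun
    have hlen' : l'.length ≤ 2 ^ d := hlen.le.trans hS
    obtain ⟨b, A, hm, hb0, hbJ, hf, hf'⟩ := cover_list h0 h1 hθ0 hθ1 hqN hT hq l' hlen' (rare_sub hsub hrare)
    subst hJ
    obtain ⟨σ, h0σ, hlast, hside⟩ := Pool.Agent.Helper70.BT.Seg.runL_side hrun' hm hb0 hbJ
    have hcl : ∀ j, j ≤ (w + 1) * q + 1 → b j < 2 ^ d + 1 := fun j hj => by
      have h3 := hm hj
      rw [hbJ] at h3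
      omega
    set t : Tp S ((w + 1) * q + 1) d := (A, (fun j => ⟨b j.val, hcl j.val (Nat.le_of_lt_succ j.isLt)⟩), σ) with ht
    have hb : ∀ j ≤ (w + 1) * q + 1, b j = bt t j := by
      intro j hj
      show b j = b (min j ((w + 1) * q + 1))
      rw [min_eq_left hj]
    have hmt : Monotone (bt t) := fun i j hij => hm (min_le_min_right ((w + 1) * q + 1) hij)
    refine ⟨⟨t, hmt, ?_, h0σ, z, ?_⟩, fun j => ?_⟩
    · rw [← hb 0 (Nat.zero_le _)]
      exact hb0
    · show P.act (σ (Fin.last _)) = _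
      rw [hlast]
      exact hs
    · have key : ∀ A' : Finset (Fin ((w + 1) * q + 1)),
          Fintype.card C ≤ (free (Pool.Agent.Helper99.BT.partb A' b l')).card + T →
          InC P T (Pool.Agent.Helper99.BT.sideb A' (bt t) t.2.2) (fun _ => True) I := by
        intro A' hA'
        refine ⟨Pool.Agent.Helper99.BT.partb A' b l', ?_, trivial, hA'⟩
        rw [← Pool.Agent.Helper99.BT.Asm.sideb_congr A' hb]
        exact hside A'
      by_cases hj : j = 0
      · have e0 : Pool.Agent.Helper99.BT.Asm.sd A j = A := if_pos hj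
        show InC P T (Pool.Agent.Helper99.BT.sideb (Pool.Agent.Helper99.BT.Asm.sd A j) (bt t) t.2.2) (fun _ => True) I
        rw [e0]
        exact key A hf
      · have e1 : Pool.Agent.Helper99.BT.Asm.sd A j = Aᶜ := if_neg hj
        show InC P T (Pool.Agent.Helper99.BT.sideb (Pool.Agent.Helper99.BT.Asm.sd A j) (bt t) t.2.2) (fun _ => True) I
        rw [e1]
        exact key Aᶜ hf'

end Pool.Agent.Helper70.BTN
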