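import Pool.Agent.Helper70.BTN.Defs
import Pool.Agent.Helper70.BTN.Base

/-!
# BTN: the game in one orbit (NF4b)
-/

set_option autoImplicit false
set_option linter.unusedSectionVars false

namespace Pool.Agent.Helper70.BTN

open Finset Pool.Agent.Helper19.NF Pool.Agent.Helper74.NW Pool.Agent.Helper96.BT
open Pool.Agent.Helper74.NE (fine fine_apply)
open Pool.Agent.Helper99.NQ (pos)
open Pool.Agent.Helper96.PH (Det CB opn)
open Pool.Agent.Helper74.NS (Expands)

/-- The numbers of the elements of `X` with the property `p`. -/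
private theorem card_en {Ω : Type} {M : ℕ} {X : Finset Ω} (hX : X.card ≤ M) (p : Ω → Prop) :
    Nat.card {k : Fin M // ∃ V, en M X k = some V ∧ p V} = Nat.card {V : Ω // V ∈ X ∧ p V} := by
  classical
  refine Nat.card_eq_of_bijective (fun k => ⟨k.2.choose, en_mem k.2.choose_spec.1, k.2.choose_spec.2⟩) ⟨?_, ?_⟩
  · intro k k' h
    have h1 : k.2.choose = k'.2.choose := congrArg Subtype.val h
    have h2 := k.2.choose_spec.1
    have h3 := k'.2.choose_spec.1
    rw [h1] at h2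
    exact Subtype.ext (en_inj h2 h3)
  · rintro ⟨V, hV, hp⟩
    obtain ⟨k, hk⟩ := exists_en hX hV
    refine ⟨⟨k, V, hk, hp⟩, ?_⟩
    refine Subtype.ext ?_
    have h1 : ∃ V, en M X k = some V ∧ p V := ⟨V, hk, hp⟩
    have h2 := h1.choose_spec.1
    exact Option.some_injective _ (h2.symm.trans hk)

private theorem card_en_pi {Ω ι : Type} [Fintype ι] {M : ℕ} {X : ι → Finset Ω} (hX : ∀ j, (X j).card ≤ M)
    (p : ι → Ω → Prop) :
    Nat.card {k : ι → Fin M // ∀ j, ∃ V, en M (X j) (k j) = some V ∧ p j V} =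
      Nat.card {V : ι → Ω // ∀ j, V j ∈ X j ∧ p j (V j)} := by
  classical
  rw [Nat.card_congr (Equiv.subtypePiEquivPi (p := fun {j : ι} (k : Fin M) => ∃ V, en M (X j) k = some V ∧ p j V)),
    Nat.card_congr (Equiv.subtypePiEquivPi (p := fun {j : ι} (V : Ω) => V ∈ X j ∧ p j V)), Nat.card_pi, Nat.card_pi]
  exact prod_congr rfl fun j _ => card_en (hX j) (p j)

private theorem card_eq_sum_ite {α : Type} [Fintype α] (p : α → Prop) [DecidablePred p] :
    (Nat.card {a // p a} : ℝ) = ∑ a, if p a then (1 : ℝ) else 0 := by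
  rw [Nat.card_eq_fintype_card, Fintype.card_subtype, card_filter]
  push_cast
  rfl

variable {n D m S : ℕ} [NeZero m] {F B W G Z : Type} [Field F] [Fintype F] [AddCommGroup B] [AddCommGroup W]
  [Module F W] [Fintype W] [Fintype B] (enc : W →+ (Fin D × Fin m → B))

open Classical in
/-- One window: changes at places in `U`. -/
private theorem stepQ {Ω : Type} {w N : ℕ} (g : Fin D → Equiv.Perm (Fin n)) (hh : Fin (w + 1) → Fin n → Fin D × Fin m)
    (K : Finset (Fin n)) (Q : Fin (w + 1) → Ch n m F W → Finset Ω) (U : Fin (w + 1) → Ω → Fin n → Finset W)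
    (cl : ∀ j x, ∀ V ∈ Q j x, ∀ x', (∀ p l, x' p l ≠ x p l → ∃ u ∈ K, pos g (hh j) u = p ∧ l ∈ U j V u) → V ∈ Q j x')
    (jj : Fin N → Fin (w + 1)) (j : Fin (w + 1)) (Y : Fin N → Fin n → W) (x x' : Ch n m F W) (V : Ω)
    (hx : V ∈ Q j x) (hY : ∀ l, jj l = j → ∀ u ∈ K, Y l u ∈ U j V u)
    (hx' : x' = x + ∑ l ∈ univ.filter (fun l => jj l = j), flip (F := F) g (hh j) K (Y l) ∨
      x' = x - ∑ l ∈ univ.filter (fun l => jj l = j), flip (F := F) g (hh j) K (Y l)) :
    V ∈ Q j x' := by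
  refine cl j x V hx x' fun p l hpl => ?_
  have h1 : (∑ l ∈ univ.filter (fun l => jj l = j), flip (F := F) g (hh j) K (Y l)) p l ≠ 0 := by
    intro h2
    rcases hx' with h3 | h3
    · refine hpl ?_
      rw [h3, Pi.add_apply, Pi.add_apply, h2, add_zero]
    · refine hpl ?_
      rw [h3, Pi.sub_apply, Pi.sub_apply, h2, sub_zero]
  rw [Finset.sum_apply, Finset.sum_apply] at h1
  obtain ⟨i, hi, h2⟩ := exists_ne_zero_of_sum_ne_zero h1
  obtain ⟨u, h7, h3, h4⟩ := Pool.Agent.Helper27.BT.flip_ne_zero h2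
  refine ⟨u, h7, h3, ?_⟩
  rw [← h4]
  exact hY i (mem_filter.1 hi).2 u h7

open Classical in
/-- NF4b: `Helper27.BT.cyl_bound`, counted, from NF4a. As there, but with triples `(x, V, Y)`, `V : Fin (w + 1) → Ω`,
`V j ∈ Q j x`; after the change of the variable `x = XX x0 Y` (the conditions are `V j ∈ Q j (Xj j x0 Y)` by the closure)
replace `V j` by its number `k j : Fin M` in `Q j (Xj j x0 Y)` (`en` of Defs) and apply NF4a for every `k`. -/
theorem cyl_bound {Ω : Type} [Fintype Ω] [AddCommGroup G] [Fintype G] {w m1 : ℕ} (hE : Mds enc (D * m1))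
    (hm1 : m1 ≤ m) (g : Fin D → Equiv.Perm (Fin n))
    (hh : Fin (w + 1) → Fin n → Fin D × Fin m) (t0 : Fin n × Fin m → B) (K : Finset (Fin n)) (h : ℕ) (h0 : 0 < h)
    (Q : Fin (w + 1) → Ch n m F W → Finset Ω) (U : Fin (w + 1) → Ω → Fin n → Finset W) (M : ℕ)
    (hM : ∀ j x, (Q j x).card ≤ M)
    (hU : ∀ j x, ∀ V ∈ Q j x, ∀ u ∈ K, (U j V u).card = h)
    (cl : ∀ j x, ∀ V ∈ Q j x, ∀ x', (∀ p l, x' p l ≠ x p l → ∃ u ∈ K, pos g (hh j) u = p ∧ l ∈ U j V u) → V ∈ Q j x')
    (γ : B → G) {δ : ℝ} (hδ : 0 ≤ δ) (hγ : CB γ (Fin K.card × Fin m1) (2 * w + 1) δ) (z : G) :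
    ∑ x ∈ univ.filter (fun x : Ch n m F W =>
        ∑ v ∈ univ.filter (fun v : Fin n × Fin m => v.2.val < m1), γ (t0 v + lam enc g x v) = z),
      ∏ j, ((Q j x).card : ℝ) ≤
      (∑ x : Ch n m F W, ∏ j, ((Q j x).card : ℝ)) / Fintype.card G +
        δ * (M : ℝ) ^ (w + 1) * (1 / ((h : ℝ) / Fintype.card W)) ^ (2 * (w + 1) * K.card) *
          Nat.card (Ch n m F W) := by
  -- the players
  have hcard : Fintype.card (Fin (w + 1) × Bool) = 2 * w + 1 + 1 := by
    rw [Fintype.card_prod, Fintype.card_fin, Fintype.card_bool]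
    ring
  obtain ⟨ε⟩ : Nonempty (Fin (w + 1) × Bool ≃ Fin (2 * w + 1 + 1)) := ⟨Fintype.equivFinOfCardEq hcard⟩
  obtain ⟨jj, hjj⟩ : ∃ jj : Fin (2 * w + 1 + 1) → Fin (w + 1), jj = fun l => (ε.symm l).1 := ⟨_, rfl⟩
  obtain ⟨pt, hpt⟩ : ∃ pt : Fin (2 * w + 1 + 1) → Fin (2 * w + 1 + 1),
    pt = fun l => ε ((ε.symm l).1, !(ε.symm l).2) := ⟨_, rfl⟩
  have p1 : ∀ l, jj (pt l) = jj l := by
    intro l
    rw [hjj, hpt]
    simp
  have p2 : ∀ l, pt (pt l) = l := by
    intro l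
    rw [hpt]
    simp
  have p3 : ∀ l, pt l ≠ l := by
    intro l h1
    rw [hpt] at h1
    have h2 := congrArg ε.symm h1
    simp only [Equiv.symm_apply_apply] at h2
    have h3 := congrArg Prod.snd h2
    cases h4 : (ε.symm l).2 <;> simp [h4] at h3
  have p4 : ∀ j, ∃ l, jj l = j := fun j => ⟨ε (j, true), by rw [hjj]; simp⟩
  -- the places
  obtain ⟨Dd, hDd⟩ : ∃ Dd : Fin (2 * w + 1 + 1) → (Fin n → W) → Ch n m F W,
    Dd = fun l Y => flip (F := F) g (hh (jj l)) K Y := ⟨_, rfl⟩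
  obtain ⟨XX, hXX⟩ : ∃ XX : Ch n m F W → (Fin (2 * w + 1 + 1) → Fin n → W) → Ch n m F W,
    XX = fun x0 Y => x0 + ∑ l, Dd l (Y l) := ⟨_, rfl⟩
  obtain ⟨Xj, hXj⟩ : ∃ Xj : Fin (w + 1) → Ch n m F W → (Fin (2 * w + 1 + 1) → Fin n → W) →
      Ch n m F W,
    Xj = fun j x0 Y => x0 + ∑ l ∈ univ.filter (fun l => ¬ jj l = j), Dd l (Y l) := ⟨_, rfl⟩
  have hsplit : ∀ j x0 Y, XX x0 Y = Xj j x0 Y + ∑ l ∈ univ.filter (fun l => jj l = j),
      flip (F := F) g (hh j) K (Y l) := by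
    intro j x0 Y
    have h1 : ∑ l ∈ univ.filter (fun l => jj l = j), flip (F := F) g (hh j) K (Y l) =
        ∑ l ∈ univ.filter (fun l => jj l = j), Dd l (Y l) := by
      refine sum_congr rfl fun l hl => ?_
      rw [hDd]
      show _ = flip (F := F) g (hh (jj l)) K (Y l)
      rw [(mem_filter.1 hl).2]
    have h2 := sum_filter_add_sum_filter_not univ (fun l => jj l = j) fun l => Dd l (Y l)
    rw [h1, hXX, hXj]
    show x0 + _ = x0 + _ + _
    rw [← h2]
    abel
  -- the conditions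
  let PY : (Fin (2 * w + 1 + 1) → Fin n → W) → Fin (w + 1) → Ω → Prop := fun Y j V =>
    ∀ l, jj l = j → ∀ u ∈ K, Y l u ∈ U j V u
  let Cyl : (Fin (w + 1) → Fin M) → Ch n m F W → Fin (2 * w + 1 + 1) → (Fin (2 * w + 1 + 1) → Fin n → W) → Prop :=
    fun k x0 l Y => ∃ V, en M (Q (jj l) (Xj (jj l) x0 Y)) (k (jj l)) = some V ∧ ∀ u ∈ K, Y (pt l) u ∈ U (jj l) V u
  have hCyl : ∀ k x0 Y, (∀ l, Cyl k x0 l Y) ↔
      ∀ j, ∃ V, en M (Q j (Xj j x0 Y)) (k j) = some V ∧ PY Y j V := by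
    intro k x0 Y
    constructor
    · intro h1 j
      obtain ⟨l, rfl⟩ := p4 j
      obtain ⟨V, hV, -⟩ := h1 l
      refine ⟨V, hV, fun l' hl' u hu => ?_⟩
      obtain ⟨V', hV', h2⟩ := h1 (pt l')
      rw [p1, hl'] at hV'
      have h3 : V' = V := Option.some_injective _ (hV'.symm.trans hV)
      have h4 := h2 u hu
      rw [p2, p1, hl', h3] at h4
      exact h4
    · intro h1 l
      obtain ⟨V, hV, h2⟩ := h1 (jj l)
      exact ⟨V, hV, fun u hu => h2 (pt l) (p1 l) u hu⟩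
  have hCond : ∀ x0 Y (V : Fin (w + 1) → Ω), (∀ j, V j ∈ Q j (XX x0 Y) ∧ PY Y j (V j)) ↔
      ∀ j, V j ∈ Q j (Xj j x0 Y) ∧ PY Y j (V j) := by
    intro x0 Y V
    refine forall_congr' fun j => and_congr_left fun h1 => ⟨fun h2 => ?_, fun h2 => ?_⟩
    · exact stepQ g hh K Q U cl jj j Y (XX x0 Y) (Xj j x0 Y) (V j) h2 h1
        (Or.inr (by rw [hsplit j x0 Y, add_sub_cancel_right]))
    · exact stepQ g hh K Q U cl jj j Y (Xj j x0 Y) (XX x0 Y) (V j) h2 h1 (Or.inl (hsplit j x0 Y))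
  have hnum : ∀ x0 Y, (Nat.card {k : Fin (w + 1) → Fin M // ∀ l, Cyl k x0 l Y} : ℝ) =
      Nat.card {V : Fin (w + 1) → Ω // ∀ j, V j ∈ Q j (XX x0 Y) ∧ PY Y j (V j)} := by
    intro x0 Y
    rw [Nat.card_congr (Equiv.subtypeEquivRight fun k => hCyl k x0 Y),
      card_en_pi (fun j => hM j (Xj j x0 Y)) (PY Y),
      Nat.card_congr (Equiv.subtypeEquivRight fun V => hCond x0 Y V)]
  let f : Ch n m F W → G := fun x =>
    ∑ v ∈ univ.filter (fun v : Fin n × Fin m => v.2.val < m1), γ (t0 v + lam enc g x v)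
  -- the count of the places
  have hL : (0 : ℝ) < Fintype.card W := Nat.cast_pos.2 (Fintype.card_pos_iff.2 ⟨0⟩)
  have hhR : (0 : ℝ) < h := by exact_mod_cast h0
  obtain ⟨c0, hc0⟩ : ∃ c0 : ℕ, c0 = (h ^ K.card * Fintype.card W ^ (n - K.card)) ^ (2 * w + 1 + 1) := ⟨_, rfl⟩
  have hcount : ∀ (x : Ch n m F W) (V : Fin (w + 1) → Ω), (∀ j, V j ∈ Q j x) →
      Nat.card {Y : Fin (2 * w + 1 + 1) → Fin n → W // ∀ j, PY Y j (V j)} = c0 := by
    intro x V hx
    have h1 : ∀ Y : Fin (2 * w + 1 + 1) → Fin n → W,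
        (∀ j, PY Y j (V j)) ↔
        Y ∈ Fintype.piFinset fun l => Fintype.piFinset fun u => if u ∈ K then U (jj l) (V (jj l)) u else univ := by
      intro Y
      simp only [Fintype.mem_piFinset]
      constructor
      · intro h2 l u
        split_ifs with hu
        · exact h2 (jj l) l rfl u hu
        · exact mem_univ _
      · rintro h2 j l rfl u hu
        have := h2 l u
        rwa [if_pos hu] at this
    rw [Nat.card_congr (Equiv.subtypeEquivRight h1), Nat.card_eq_fintype_card, Fintype.card_coe, Fintype.card_piFinset]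
    have h2 : ∀ l, (Fintype.piFinset fun u => if u ∈ K then U (jj l) (V (jj l)) u else univ).card =
        h ^ K.card * Fintype.card W ^ (n - K.card) := by
      intro l
      rw [Fintype.card_piFinset]
      have h3 : ∀ u, (if u ∈ K then U (jj l) (V (jj l)) u else univ).card = if u ∈ K then h else Fintype.card W := by
        intro u
        split_ifs with hu
        · exact hU _ x _ (hx _) u hu
        · exact card_univ
      rw [prod_congr rfl fun u _ => h3 u, prod_ite, prod_const, prod_const]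
      congr 2
      · congr 1
        ext u
        simp
      · have h4 : (univ.filter fun u : Fin n => ¬ u ∈ K) = Kᶜ := by
          ext u
          simp
        rw [h4, card_compl, Fintype.card_fin]
    rw [prod_congr rfl fun l _ => h2 l, prod_const, card_univ, Fintype.card_fin, hc0]
  -- the sum of the numbers of the triples
  have hsum : ∀ x : Ch n m F W, ∑ Y : Fin (2 * w + 1 + 1) → Fin n → W,
      (Nat.card {V : Fin (w + 1) → Ω // ∀ j, V j ∈ Q j x ∧ PY Y j (V j)} : ℝ) = (∏ j, ((Q j x).card : ℝ)) * c0 := by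
    intro x
    have h1 : ∀ Y : Fin (2 * w + 1 + 1) → Fin n → W,
        (Nat.card {V : Fin (w + 1) → Ω // ∀ j, V j ∈ Q j x ∧ PY Y j (V j)} : ℝ) =
        ∑ V : Fin (w + 1) → Ω, if ∀ j, V j ∈ Q j x ∧ PY Y j (V j) then (1 : ℝ) else 0 := fun Y =>
      card_eq_sum_ite _
    have h2 : ∀ V : Fin (w + 1) → Ω, (∑ Y : Fin (2 * w + 1 + 1) → Fin n → W,
        if ∀ j, V j ∈ Q j x ∧ PY Y j (V j) then (1 : ℝ) else 0) =
        if V ∈ Fintype.piFinset (fun j => Q j x) then (c0 : ℝ) else 0 := by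
      intro V
      split_ifs with hV
      · rw [Fintype.mem_piFinset] at hV
        rw [← hcount x V hV, card_eq_sum_ite]
        refine sum_congr rfl fun Y _ => ?_
        refine if_congr ?_ rfl rfl
        exact ⟨fun h3 j => (h3 j).2, fun h3 j => ⟨hV j, h3 j⟩⟩
      · refine sum_eq_zero fun Y _ => if_neg fun h3 => hV ?_
        rw [Fintype.mem_piFinset]
        exact fun j => (h3 j).1
    rw [sum_congr rfl fun Y _ => h1 Y, sum_comm, sum_congr rfl fun V _ => h2 V, ← sum_filter, sum_const,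
      filter_mem_eq_inter, univ_inter, Fintype.card_piFinset, nsmul_eq_mul]
    push_cast
    rfl
  have hchg : ∀ R : Ch n m F W → Prop,
      ∑ x ∈ univ.filter R, (∏ j, ((Q j x).card : ℝ)) * c0 =
        ∑ x0 : Ch n m F W, ∑ k : Fin (w + 1) → Fin M, (Nat.card {Y : Fin (2 * w + 1 + 1) → Fin n → W //
          (∀ l, Cyl k x0 l Y) ∧ R (XX x0 Y)} : ℝ) := by
    intro R
    have h1 : ∀ x0 : Ch n m F W, ∑ k : Fin (w + 1) → Fin M, (Nat.card {Y : Fin (2 * w + 1 + 1) → Fin n → W //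
          (∀ l, Cyl k x0 l Y) ∧ R (XX x0 Y)} : ℝ) = ∑ Y : Fin (2 * w + 1 + 1) → Fin n → W,
          if R (XX x0 Y) then
            (Nat.card {V : Fin (w + 1) → Ω // ∀ j, V j ∈ Q j (XX x0 Y) ∧ PY Y j (V j)} : ℝ) else 0 := by
      intro x0
      have h2 : ∀ k : Fin (w + 1) → Fin M, (Nat.card {Y : Fin (2 * w + 1 + 1) → Fin n → W //
          (∀ l, Cyl k x0 l Y) ∧ R (XX x0 Y)} : ℝ) = ∑ Y : Fin (2 * w + 1 + 1) → Fin n → W,
          if (∀ l, Cyl k x0 l Y) ∧ R (XX x0 Y) then (1 : ℝ) else 0 := fun k => card_eq_sum_ite _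
      rw [sum_congr rfl fun k _ => h2 k, sum_comm]
      refine sum_congr rfl fun Y _ => ?_
      split_ifs with hR
      · rw [← hnum x0 Y, card_eq_sum_ite]
        refine sum_congr rfl fun k _ => if_congr ?_ rfl rfl
        exact and_iff_left hR
      · exact sum_eq_zero fun k _ => if_neg fun h3 => hR h3.2
    rw [sum_congr rfl fun x0 _ => h1 x0, sum_comm]
    have h3 : ∀ Y : Fin (2 * w + 1 + 1) → Fin n → W, (∑ x0 : Ch n m F W, if R (XX x0 Y) then
        (Nat.card {V : Fin (w + 1) → Ω // ∀ j, V j ∈ Q j (XX x0 Y) ∧ PY Y j (V j)} : ℝ) else 0) =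
        ∑ x : Ch n m F W, if R x then
          (Nat.card {V : Fin (w + 1) → Ω // ∀ j, V j ∈ Q j x ∧ PY Y j (V j)} : ℝ) else 0 := by
      intro Y
      refine Fintype.sum_equiv (Equiv.addRight (∑ l, Dd l (Y l))) _ _ fun x0 => ?_
      have h4 : XX x0 Y = (Equiv.addRight (∑ l, Dd l (Y l))) x0 := by
        rw [hXX]
        rfl
      rw [h4]
    rw [sum_congr rfl fun Y _ => h3 Y, sum_comm, sum_filter]
    refine sum_congr rfl fun x _ => ?_
    split_ifs with hR
    · rw [← hsum x]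
    · exact sum_const_zero.symm
  -- one `x0` and one `k`
  have hone : ∀ (x0 : Ch n m F W) (k : Fin (w + 1) → Fin M),
      (Nat.card {Y : Fin (2 * w + 1 + 1) → Fin n → W // (∀ l, Cyl k x0 l Y) ∧ f (XX x0 Y) = z} : ℝ) ≤
        Nat.card {Y : Fin (2 * w + 1 + 1) → Fin n → W // ∀ l, Cyl k x0 l Y} / Fintype.card G +
          δ * Fintype.card (Fin (2 * w + 1 + 1) → Fin n → W) := by
    intro x0 k
    have h1 := one_base enc hE hm1 g (fun l => hh (jj l)) t0 K γ hγ z x0 (Cyl k x0) ?_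
    · have h2 : ∀ Y, XX x0 Y = x0 + ∑ l, flip (F := F) g (hh (jj l)) K (Y l) := by
        intro Y
        rw [hXX, hDd]
      simp only [f, h2]
      exact h1
    · intro l Y y hy
      have h2 : Xj (jj l) x0 (Function.update Y l y) = Xj (jj l) x0 Y := by
        rw [hXj]
        show x0 + _ = x0 + _
        congr 1
        refine sum_congr rfl fun l' hl' => ?_
        rw [Function.update_of_ne fun h3 => (mem_filter.1 hl').2 (by rw [h3])]
      obtain ⟨V, hV, h3⟩ := hy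
      refine ⟨V, ?_, ?_⟩
      · rw [h2]
        exact hV
      · rw [Function.update_of_ne (p3 l)]
        exact h3
  -- the end
  have e1 := hchg fun x => f x = z
  have e2 := hchg fun _ => True
  simp only [and_true, filter_true] at e2
  have e3 := sum_le_sum (s := (univ : Finset (Ch n m F W))) fun x0 _ =>
    sum_le_sum (s := (univ : Finset (Fin (w + 1) → Fin M))) fun k _ => hone x0 k
  simp only [sum_add_distrib, ← sum_div, sum_const, card_univ, nsmul_eq_mul] at e3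
  have hk : (Fintype.card (Fin (w + 1) → Fin M) : ℝ) = (M : ℝ) ^ (w + 1) := by
    rw [Fintype.card_fun, Fintype.card_fin, Fintype.card_fin]
    push_cast
    rfl
  rw [← e1, ← e2, hk] at e3
  have hc0R : (c0 : ℝ) = ((h : ℝ) ^ K.card * (Fintype.card W : ℝ) ^ (n - K.card)) ^ (2 * w + 1 + 1) := by
    rw [hc0]
    push_cast
    rfl
  have hc0p : (0 : ℝ) < c0 := by rw [hc0R]; positivity
  have hKn : K.card ≤ n := by
    have := card_le_univ K
    rwa [Fintype.card_fin] at this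
  have hcY : (Fintype.card (Fin (2 * w + 1 + 1) → Fin n → W) : ℝ) =
      (1 / ((h : ℝ) / Fintype.card W)) ^ (2 * (w + 1) * K.card) * c0 := by
    have h1 : (Fintype.card (Fin (2 * w + 1 + 1) → Fin n → W) : ℝ) =
        ((Fintype.card W : ℝ) ^ n) ^ (2 * w + 1 + 1) := by
      rw [Fintype.card_fun, Fintype.card_fun, Fintype.card_fin, Fintype.card_fin]
      push_cast
      rfl
    rw [h1, hc0R, one_div_div]
    have h2 : 2 * (w + 1) * K.card = K.card * (2 * w + 1 + 1) := by ring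
    rw [h2, pow_mul, ← mul_pow]
    congr 1
    rw [div_pow, ← mul_assoc, div_mul_cancel₀ _ (by positivity), ← pow_add]
    congr 1
    omega
  rw [hcY, ← sum_mul, ← sum_mul] at e3
  refine le_of_mul_le_mul_right ?_ hc0p
  refine e3.trans (le_of_eq ?_)
  rw [Nat.card_eq_fintype_card]
  ring

end Pool.Agent.Helper70.BTN
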