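import Pool.Agent.Helper96.BT.Defs

/-!
# Programs with few computations: definitions

`Few P M`: on every input, between any two states, there are at most `M` lists of queries of each length. For the pieces
`L` of a side the list of the queries is replaced by the set of the symbols which are not queried, `frees P L I` is the
finite family of these sets.
-/

set_option autoImplicit false

namespace Pool.Agent.Helper70.BTN

open Finset Pool.Agent.Helper19.NF Pool.Agent.Helper74.NW Pool.Agent.Helper96.BT
open Pool.Agent.Helper74.NE (fine fine_apply)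
open Pool.Agent.Helper99.NQ (pos)

/-- At most `M` lists of queries for computations between any two states, of any length, on any input. -/
def Few {C X Z : Type} {S : ℕ} (P : NProg C X Z S) (M : ℕ) : Prop :=
  ∀ (I : C → X) (a b : Fin S) (L : ℕ), Nat.card {l : List C // l.length = L ∧ P.Run I a l b} ≤ M

section fam

variable {C X Z : Type} {S : ℕ} [Fintype C]

open Classical in
/-- The sets of the symbols which are not queried by the runs with the pieces `L`. -/
noncomputable def frees (P : NProg C X Z S) (L : List (Fin S × ℕ × Fin S)) (I : C → X) : Finset (Finset C) :=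
  univ.filter (fun V => ∃ c, RunL P I L c ∧ free c = V)

theorem mem_frees {P : NProg C X Z S} {L : List (Fin S × ℕ × Fin S)} {I : C → X} {V : Finset C} :
    V ∈ frees P L I ↔ ∃ c, RunL P I L c ∧ free c = V := by
  classical
  unfold frees
  rw [mem_filter]
  exact and_iff_right (mem_univ _)

end fam

section qs

variable {n D m S : ℕ} [NeZero m] {F B W Z : Type} [Field F] [AddCommGroup B] [AddCommGroup W] [Module F W]
  [Fintype W] [Fintype B]

open Classical in
/-- The sets of unread symbols of the runs of a side which leave all but `T` symbols unread and have the missing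
letters `τ`. -/
noncomputable def QS (P : NProg (B × W) F Z S) (enc : W →+ (Fin D × Fin m → B)) (g : Fin D → Equiv.Perm (Fin n))
    (x0 : Fin n × Fin m → B) (h T R : ℕ) (L : List (Fin S × ℕ × Fin S)) (τ : Fin n → Option (Fin D × Fin m))
    (I : B × W → F) : Finset (Finset (B × W)) :=
  (frees P L I).filter (fun V => Fintype.card (B × W) ≤ V.card + T ∧ ∀ v, miss enc g x0 h R I V v = τ v)

theorem mem_QS {P : NProg (B × W) F Z S} {enc : W →+ (Fin D × Fin m → B)} {g : Fin D → Equiv.Perm (Fin n)}
    {x0 : Fin n × Fin m → B} {h T R : ℕ} {L : List (Fin S × ℕ × Fin S)} {τ : Fin n → Option (Fin D × Fin m)}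
    {I : B × W → F} {V : Finset (B × W)} : V ∈ QS P enc g x0 h T R L τ I ↔
      (∃ c, RunL P I L c ∧ free c = V) ∧ Fintype.card (B × W) ≤ V.card + T ∧
        ∀ v, miss enc g x0 h R I V v = τ v := by
  classical
  unfold QS
  rw [mem_filter, mem_frees]

end qs

section en

variable {Ω : Type}

/-- The element number `k` of a finite set. -/
noncomputable def en (M : ℕ) (X : Finset Ω) (k : Fin M) : Option Ω := X.toList[k.val]?

theorem en_mem {M : ℕ} {X : Finset Ω} {k : Fin M} {V : Ω} (h : en M X k = some V) : V ∈ X := by
  unfold en at h
  rw [← Finset.mem_toList]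
  exact List.mem_of_getElem? h

theorem exists_en {M : ℕ} {X : Finset Ω} (hX : X.card ≤ M) {V : Ω} (hV : V ∈ X) : ∃ k : Fin M, en M X k = some V := by
  rw [← Finset.mem_toList] at hV
  obtain ⟨k, hk⟩ := List.mem_iff_getElem?.1 hV
  have h1 : k < X.toList.length := (List.getElem?_eq_some_iff.1 hk).1
  rw [Finset.length_toList] at h1
  exact ⟨⟨k, h1.trans_le hX⟩, hk⟩

theorem en_inj {M : ℕ} {X : Finset Ω} {k k' : Fin M} {V : Ω} (h : en M X k = some V) (h' : en M X k' = some V) :
    k = k' := by
  unfold en at h h'
  have h1 : k.val < X.toList.length := (List.getElem?_eq_some_iff.1 h).1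
  exact Fin.ext ((List.getElem?_inj h1 (Finset.nodup_toList X)).1 (h.trans h'.symm))

end en

end Pool.Agent.Helper70.BTN
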