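import Pool.Agent.Helper58.BT.Numbers
import Pool.Agent.Helper74.NS.Defs

/-!
# BTN: the numbers (NF10)
-/

set_option autoImplicit false
set_option linter.unusedSectionVars false

namespace Pool.Agent.Helper70.BTN

open Finset Pool.Agent.Helper19.NF Pool.Agent.Helper74.NW Pool.Agent.Helper96.BT
open Pool.Agent.Helper74.NE (fine fine_apply)
open Pool.Agent.Helper99.NQ (pos)
open Pool.Agent.Helper96.PH (Det CB opn)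
open Pool.Agent.Helper74.NS (Expands)

/-- The factor `M ^ (2 Q)` of the first error is absorbed by `S * M` in place of `S`. -/
theorem errA_mul {n D m a R S M Q d e : ℕ} {r η : ℝ} (hr : 0 ≤ (1 / η) ^ 2 * (4 * (m + 2) / (m * r) ^ 2))
    (hS0 : 1 ≤ S) (hM : 1 ≤ M) :
    (M : ℝ) ^ (2 * Q) * errA n D m a R S Q d e r η ≤ errA n D m a R (S * M) Q d e r η := by
  unfold errA
  have hSR : (1 : ℝ) ≤ S := by exact_mod_cast hS0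
  have hMR : (1 : ℝ) ≤ M := by exact_mod_cast hM
  have hx : (1 : ℝ) ≤ 2 ^ d + 1 := by
    have : (0 : ℝ) < 2 ^ d := by positivity
    linarith
  obtain ⟨x, hx'⟩ : ∃ x : ℝ, x = 2 ^ d + 1 := ⟨_, rfl⟩
  rw [← hx'] at hx ⊢
  have h1 : (M : ℝ) * ((S : ℝ) ^ 2 * x + 1) ≤ ((S * M : ℕ) : ℝ) ^ 2 * x + 1 := by
    push_cast
    have h2 : (1 : ℝ) ≤ M * ((S : ℝ) ^ 2 * x) := by
      have h3 : (1 : ℝ) ≤ (S : ℝ) ^ 2 := one_le_pow₀ hSR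
      have h4 : (1 : ℝ) ≤ (S : ℝ) ^ 2 * x := by nlinarith
      nlinarith
    nlinarith [mul_nonneg (sub_nonneg.2 hMR) (sub_nonneg.2 h2)]
  have h5 : ((M : ℝ) * ((S : ℝ) ^ 2 * x + 1)) ^ (2 * Q) ≤ (((S * M : ℕ) : ℝ) ^ 2 * x + 1) ^ (2 * Q) :=
    pow_le_pow_left₀ (by positivity) h1 _
  have h6 : (0 : ℝ) ≤ R * (n.choose a * (D * (m / (e + 1))) ^ (2 * a) *
      ((1 / η) ^ 2 * (4 * (m + 2) / (m * r) ^ 2)) ^ a) := by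
    have : (0 : ℝ) ≤ (m : ℝ) / (e + 1) := by positivity
    positivity
  calc (M : ℝ) ^ (2 * Q) * (R * ((S : ℝ) ^ 2 * x + 1) ^ (2 * Q) * n.choose a * (D * (m / (e + 1))) ^ (2 * a) *
        ((1 / η) ^ 2 * (4 * (m + 2) / (m * r) ^ 2)) ^ a)
      = ((M : ℝ) * ((S : ℝ) ^ 2 * x + 1)) ^ (2 * Q) * (R * (n.choose a * (D * (m / (e + 1))) ^ (2 * a) *
        ((1 / η) ^ 2 * (4 * (m + 2) / (m * r) ^ 2)) ^ a)) := by
        have h7 : ((M : ℝ) * ((S : ℝ) ^ 2 * x + 1)) ^ (2 * Q) = (M : ℝ) ^ (2 * Q) * ((S : ℝ) ^ 2 * x + 1) ^ (2 * Q) :=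
          mul_pow _ _ _
        rw [h7]
        ring
    _ ≤ (((S * M : ℕ) : ℝ) ^ 2 * x + 1) ^ (2 * Q) * (R * (n.choose a * (D * (m / (e + 1))) ^ (2 * a) *
        ((1 / η) ^ 2 * (4 * (m + 2) / (m * r) ^ 2)) ^ a)) := mul_le_mul_of_nonneg_right h5 h6
    _ = _ := by ring

/-- The number of the types. -/
theorem types_mul {s w q S M t Q : ℕ} (hs : 2 ^ 60 ≤ s) (hq : q = s ^ 8) (hM : 1 ≤ M) (hMs : M ≤ 2 ^ s)
    (hQ : Q = (w + 1) * q + 1) (ht : t ≤ (2 * (S * (2 ^ s + 1))) ^ ((w + 1) * q + 2)) :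
    2 * t * M ^ (2 * Q) ≤ (S * M * (2 ^ s + 1) * (w + 2) ^ q) ^ ((w + 1) * q + 2) := by
  have hs0 : 1 ≤ s := le_trans (by norm_num) hs
  have h1 : (w + 1) * q + 2 = Q + 1 := by rw [hQ]
  rw [h1] at ht ⊢
  have h2 : s + 2 ≤ q := by
    rw [hq]
    calc s + 2 ≤ s * s := by nlinarith
      _ = s ^ 2 := by ring
      _ ≤ s ^ 8 := Nat.pow_le_pow_right hs0 (by norm_num)
  have h3 : 2 * 2 ^ (Q + 1) * M ^ Q ≤ ((w + 2) ^ q) ^ (Q + 1) := by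
    calc 2 * 2 ^ (Q + 1) * M ^ Q ≤ 2 ^ (Q + 1) * 2 ^ (Q + 1) * (2 ^ s) ^ (Q + 1) := by
          refine Nat.mul_le_mul (Nat.mul_le_mul_right _ ?_) ?_
          · exact Nat.le_self_pow (by omega) 2
          · exact (Nat.pow_le_pow_left hMs Q).trans (Nat.pow_le_pow_right (by positivity) (by omega))
      _ = (2 * 2 * 2 ^ s) ^ (Q + 1) := by rw [← mul_pow, ← mul_pow]
      _ ≤ ((w + 2) ^ q) ^ (Q + 1) := by
          refine Nat.pow_le_pow_left ?_ _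
          calc 2 * 2 * 2 ^ s = 2 ^ (s + 2) := by ring
            _ ≤ 2 ^ q := Nat.pow_le_pow_right (by norm_num) h2
            _ ≤ (w + 2) ^ q := Nat.pow_le_pow_left (by omega) _
  calc 2 * t * M ^ (2 * Q) ≤ 2 * (2 * (S * (2 ^ s + 1))) ^ (Q + 1) * M ^ (2 * Q) :=
        Nat.mul_le_mul_right _ (Nat.mul_le_mul_left _ ht)
    _ = (2 * 2 ^ (Q + 1) * M ^ Q) * ((S * (2 ^ s + 1)) ^ (Q + 1) * M ^ Q) := by
        rw [mul_pow, two_mul Q, pow_add]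
        ring
    _ ≤ ((w + 2) ^ q) ^ (Q + 1) * ((S * (2 ^ s + 1)) ^ (Q + 1) * M ^ (Q + 1)) :=
        Nat.mul_le_mul h3 (Nat.mul_le_mul_left _ (Nat.pow_le_pow_right hM (by omega)))
    _ = (S * M * (2 ^ s + 1) * (w + 2) ^ q) ^ (Q + 1) := by
        rw [← mul_pow, ← mul_pow]
        congr 1
        ring

/-- NF10: from `Helper58.BT.numbers` with `S * M` in place of `S` and
`t = 2 * tΘ * M ^ (2 * Q) ≤ (S * M * (2 ^ s + 1) * (w + 2) ^ q) ^ ((w + 1) * q + 2)`. -/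
theorem numbers {s k w q T h e S M L N t Q : ℕ} {ε : ℝ} (hs : 2 ^ 60 ≤ s) (hk : s ^ 2000 ≤ k)
    (hw : 2 ^ w ≤ s) (hε : 1 / (s : ℝ) ≤ ε) (hε1 : ε ≤ 1) (hL : L = k ^ 60)
    (hN : N = k * L) (hT : T = N - ⌊ε / (4 * 2 ^ w) * N⌋₊) (hq : q = s ^ 8) (hh : h = L / (20 * s ^ 2))
    (he : e = s ^ 13 / (20 * s ^ 2)) (hS0 : 1 ≤ S) (hM : 1 ≤ M) (hS : S * M ≤ 2 ^ s) (hQ : Q = (w + 1) * q + 1)
    (ht : t ≤ (2 * (S * (2 ^ s + 1))) ^ ((w + 1) * q + 2)) :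
    (10 ^ 6 : ℝ) * 2 ^ w * (w + 1) * (s + 1 / (1 / (4 * s : ℝ))) ^ 2 / (ε ^ 2 * (1 / (4 * s : ℝ))) ≤ q ∧
    (N : ℝ) ≤ T + ε / (4 * 2 ^ w) * N ∧ Q ≤ 2 ^ s ∧ 0 < h ∧ h + 1 ≤ L ∧ e < s ^ 13 ∧
    (T : ℝ) ≤ (1 - 1 / (5 * s ^ 2)) * N ∧
    ((s ^ 13 : ℕ) * h + e * L : ℝ) ≤ (s ^ 13 : ℕ) * L * (1 / (5 * s ^ 2)) / 2 ∧
    ((2 * s + 1 : ℝ) * ((8 * s ^ 20 * 2 : ℕ) * (s ^ 13 : ℕ))) ^ 2 / k + 2 * 2 ^ 4 / Real.sqrt k +
      (M : ℝ) ^ (2 * Q) * errA (8 * s ^ 20 * 2) 15 (s ^ 13) (s ^ 20) (2 * s) S Q s e (1 / (5 * s ^ 2)) ((h : ℝ) / L) +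
      t * (15 * (s ^ 13 : ℕ) + 1) ^ (2 * (8 * s ^ 20 * 2)) *
        (2 * ((k : ℝ) ^ (-((8 * s ^ 20 * 2 - 2 * s ^ 20 : ℕ) * (1 : ℕ) : ℝ) / 2 ^ 5) * (M : ℝ) ^ (2 * Q) *
          (1 / ((h : ℝ) / L)) ^ (4 * (8 * s ^ 20 * 2)))) ≤ 1 / s := by
  have hs0 : 1 ≤ s := le_trans (by norm_num) hs
  have hsR : (1 : ℝ) ≤ s := by exact_mod_cast hs0
  have hθ1 : 1 / (s : ℝ) ≤ 1 := by
    rw [div_le_one (by linarith)]
    exact hsR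
  have hMs : M ≤ 2 ^ s := le_trans (Nat.le_mul_of_pos_left _ hS0) hS
  have ht' := types_mul (w := w) (S := S) hs hq hM hMs hQ ht
  obtain ⟨n1, n2, n3, n4, n5, n6, n7, n8, n9⟩ := Pool.Agent.Helper58.BT.numbers (s := s) (k := k) (w := w) (q := q)
    (T := T) (h := h) (e := e) (S := S * M) (L := L) (N := N) (t := 2 * t * M ^ (2 * Q)) (Q := Q) (ε := ε)
    (θ := 1 / (s : ℝ)) hs hk hw hε hε1 le_rfl hθ1 hL hN hT hq hh he hS hQ ht'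
  have hθ4 : (1 / (s : ℝ)) / 4 = 1 / (4 * s : ℝ) := by
    rw [div_div, mul_comm]
  rw [hθ4] at n1
  refine ⟨n1, n2, n3, n4, n5, n6, n7, n8, ?_⟩
  have hA := errA_mul (n := 8 * s ^ 20 * 2) (D := 15) (m := s ^ 13) (a := s ^ 20) (R := 2 * s) (S := S) (M := M)
    (Q := Q) (d := s) (e := e) (r := 1 / (5 * s ^ 2)) (η := (h : ℝ) / L) (by positivity) hS0 hM
  have h1 : (t : ℝ) * (15 * (s ^ 13 : ℕ) + 1) ^ (2 * (8 * s ^ 20 * 2)) *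
        (2 * ((k : ℝ) ^ (-((8 * s ^ 20 * 2 - 2 * s ^ 20 : ℕ) * (1 : ℕ) : ℝ) / 2 ^ 5) * (M : ℝ) ^ (2 * Q) *
          (1 / ((h : ℝ) / L)) ^ (4 * (8 * s ^ 20 * 2)))) =
      ((2 * t * M ^ (2 * Q) : ℕ) : ℝ) * (15 * (s ^ 13 : ℕ) + 1) ^ (2 * (8 * s ^ 20 * 2)) *
        ((k : ℝ) ^ (-((8 * s ^ 20 * 2 - 2 * s ^ 20 : ℕ) * (1 : ℕ) : ℝ) / 2 ^ 5) *
          (1 / ((h : ℝ) / L)) ^ (4 * (8 * s ^ 20 * 2))) := by
    push_cast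
    ring
  rw [h1]
  have h2 : (1 / (s : ℝ)) / 4 ≤ 1 / s := by
    have : (0 : ℝ) ≤ 1 / s := by positivity
    linarith
  refine le_trans ?_ (n9.trans h2)
  exact add_le_add (add_le_add le_rfl hA) le_rfl

end Pool.Agent.Helper70.BTN
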