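import Pool.Agent.Helper70.BTN.Defs
import Pool.Agent.Helper70.BTN.Cyl
import Pool.Agent.Helper98.BT.Type

/-!
# BTN: the game for one type (NF5)
-/

set_option autoImplicit false
set_option linter.unusedSectionVars false

namespace Pool.Agent.Helper70.BTN

open Finset Pool.Agent.Helper19.NF Pool.Agent.Helper74.NW Pool.Agent.Helper96.BT
open Pool.Agent.Helper74.NE (fine fine_apply)
open Pool.Agent.Helper99.NQ (pos)
open Pool.Agent.Helper96.PH (Det CB opn)
open Pool.Agent.Helper74.NS (Expands)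

variable {n D m S : ℕ} [NeZero m] {F B W G Z : Type} [Field F] [Fintype F] [AddCommGroup B] [AddCommGroup W]
  [Module F W] [Fintype W] [Fintype B] (enc : W →+ (Fin D × Fin m → B))

section average

variable {enc}

open Classical in
/-- Weights of the inputs, summed in the orbits. -/
theorem sum_orbits (g : Fin D → Equiv.Perm (Fin n)) (x0 : Fin n × Fin m → B) (i : ℕ) (f : (B × W → F) → ℝ)
    (C : Finset (B × W → F)) (hC : ∀ I, I ∈ C ↔ CF (fine g) x0 i (tab enc I)) :
    (∑ I ∈ C, f I) * Nat.card (Ch n m F W) = ∑ I ∈ C, ∑ x : Ch n m F W, f (act enc g x0 i I x) := by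
  rw [sum_comm]
  have h1 : ∀ x : Ch n m F W, ∑ I ∈ C, f (act enc g x0 i I x) = ∑ I ∈ C, f I := by
    intro x
    refine sum_bij' (fun I _ => act enc g x0 i I x) (fun I _ => act enc g x0 i I (-x)) ?_ ?_ ?_ ?_ ?_
    · intro I hI
      exact (hC _).2 (Pool.Agent.Helper98.BT.cf_act ((hC _).1 hI) _)
    · intro I hI
      exact (hC _).2 (Pool.Agent.Helper98.BT.cf_act ((hC _).1 hI) _)
    · intro I hI
      exact Pool.Agent.Helper98.BT.act_neg ((hC _).1 hI) x
    · intro I hI
      have h2 := Pool.Agent.Helper98.BT.act_neg ((hC _).1 hI) (-x)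
      rw [neg_neg] at h2
      exact h2
    · intro I _
      rfl
  rw [sum_congr rfl fun x _ => h1 x, sum_const, card_univ, nsmul_eq_mul, Nat.card_eq_fintype_card]
  exact mul_comm _ _

open Classical in
/-- From orbits to inputs, for weights. -/
theorem average_weights (g : Fin D → Equiv.Perm (Fin n)) (x0 : Fin n × Fin m → B) (i : ℕ) (f f' : (B × W → F) → ℝ)
    (C : Finset (B × W → F)) (hC : ∀ I, I ∈ C ↔ CF (fine g) x0 i (tab enc I)) (c δ : ℝ) (hδ : 0 ≤ δ)
    (h5 : ∀ I ∈ C, ∑ x : Ch n m F W, f (act enc g x0 i I x) ≤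
      (∑ x : Ch n m F W, f' (act enc g x0 i I x)) / c + δ * Nat.card (Ch n m F W)) :
    ∑ I ∈ C, f I ≤ (∑ I ∈ C, f' I) / c + δ * Nat.card (B × W → F) := by
  have h1 := sum_orbits (enc := enc) g x0 i f C hC
  have h2 := sum_orbits (enc := enc) g x0 i f' C hC
  have h3 : (0 : ℝ) < Nat.card (Ch n m F W) := by
    have : Nonempty (Ch n m F W) := ⟨0⟩
    exact_mod_cast Nat.card_pos
  refine le_of_mul_le_mul_right ?_ h3
  rw [h1, add_mul, div_mul_eq_mul_div, h2]
  have h6 : (C.card : ℝ) ≤ Nat.card (B × W → F) := by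
    rw [Nat.card_eq_fintype_card]
    exact_mod_cast card_le_univ _
  calc ∑ I ∈ C, ∑ x : Ch n m F W, f (act enc g x0 i I x)
      ≤ ∑ I ∈ C, ((∑ x : Ch n m F W, f' (act enc g x0 i I x)) / c + δ * Nat.card (Ch n m F W)) := sum_le_sum h5
    _ = (∑ I ∈ C, ∑ x : Ch n m F W, f' (act enc g x0 i I x)) / c + C.card * (δ * Nat.card (Ch n m F W)) := by
        rw [sum_add_distrib, sum_div, sum_const, nsmul_eq_mul]
    _ ≤ _ := by
        refine add_le_add le_rfl ?_
        calc (C.card : ℝ) * (δ * Nat.card (Ch n m F W)) ≤ Nat.card (B × W → F) * (δ * Nat.card (Ch n m F W)) :=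
            mul_le_mul_of_nonneg_right h6 (mul_nonneg hδ h3.le)
          _ = δ * Nat.card (B × W → F) * Nat.card (Ch n m F W) := by ring

end average

open Classical in
/-- NF5: `Helper98.BT.type_bound` (with `type_bound_of`), counted, from NF4b with `Ω = Finset (B × W)`,
`Q j x := QS … (act enc g x0 R I x)`, `U j V u := subs h (left cell V (pos g (hh j) u))`. The average over the orbits is
for weights: `∑ f I * card Ch = ∑ I, ∑ x, f (act I x)` for `f I = 0` unless `CF` (like `Helper66.BT.card_mul`). -/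
theorem type_bound [AddCommGroup G] [Fintype G] {m1 : ℕ} (hE : Mds enc (D * m1)) (hm1 : m1 ≤ m)
    (P : NProg (B × W) F Z S) (hD : 0 < D)
    (g : Fin D → Equiv.Perm (Fin n)) (x0 : Fin n × Fin m → B) {h T R w : ℕ} (h0 : 0 < h)
    (hhL : h ≤ Fintype.card W) {E : ℝ} (hE0 : 0 ≤ E)
    (γ : B → G) (L : Fin (w + 1) → List (Fin S × ℕ × Fin S))
    (τ : Fin (w + 1) → Fin n → Option (Fin D × Fin m)) {M : ℕ} (hM : ∀ j I, (frees P (L j) I).card ≤ M)
    (hCB : CB γ (Fin (opn τ).card × Fin m1) (2 * w + 1) E) (a : G) :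
    ∑ I ∈ univ.filter (fun I : B × W → F => CF (fine g) x0 R (tab enc I) ∧ gout enc g x0 m1 R γ I = a),
      ∏ j, ((QS P enc g x0 h T R (L j) (τ j) I).card : ℝ) ≤
      (∑ I ∈ univ.filter (fun I : B × W → F => CF (fine g) x0 R (tab enc I)),
        ∏ j, ((QS P enc g x0 h T R (L j) (τ j) I).card : ℝ)) / Fintype.card G +
        E * (M : ℝ) ^ (w + 1) * (1 / ((h : ℝ) / Fintype.card W)) ^ (2 * (w + 1) * n) * Nat.card (B × W → F) := by
  have hW : (0 : ℝ) < Fintype.card W := Nat.cast_pos.2 (h0.trans_le hhL)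
  have h0' : (0 : ℝ) < h := Nat.cast_pos.2 h0
  have hr : 1 ≤ 1 / ((h : ℝ) / Fintype.card W) := by
    rw [one_div_div, le_div_iff₀ h0', one_mul]
    exact_mod_cast hhL
  rw [← filter_filter, sum_filter]
  refine average_weights (enc := enc) g x0 R _ _ _ (fun I => by rw [mem_filter]; exact and_iff_right (mem_univ _)) _ _
    (by positivity) ?_
  intro I hI
  have hcf : CF (fine g) x0 R (tab enc I) := (mem_filter.1 hI).2
  set cell : Fin n × Fin m → B := val (fine g) x0 (tab enc I) R with hcell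
  let hh : Fin (w + 1) → Fin n → Fin D × Fin m := fun j v => (τ j v).getD (⟨0, hD⟩, 0)
  let U : Fin (w + 1) → Finset (B × W) → Fin n → Finset W := fun j V u =>
    Pool.Agent.Helper98.BT.subs h (left cell V (pos g (hh j) u))
  have hgout : ∀ x : Ch n m F W, gout enc g x0 m1 R γ (act enc g x0 R I x) =
      ∑ v ∈ univ.filter (fun v : Fin n × Fin m => v.2.val < m1),
        γ (val (fine g) x0 (tab enc I) (R + 1) v + lam enc g x v) := by
    intro x
    unfold gout
    exact sum_congr rfl fun v _ => by rw [Pool.Agent.Helper98.BT.val_act_succ hcf]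
  have key := cyl_bound enc hE hm1 g hh (val (fine g) x0 (tab enc I) (R + 1)) (opn τ) h h0
    (fun j x => QS P enc g x0 h T R (L j) (τ j) (act enc g x0 R I x)) U M
    (fun j x => (card_le_card (filter_subset _ _)).trans (hM j _)) ?_ ?_ γ hE0 hCB a
  · have e1 : ∑ x : Ch n m F W, (if gout enc g x0 m1 R γ (act enc g x0 R I x) = a then
        ∏ j, ((QS P enc g x0 h T R (L j) (τ j) (act enc g x0 R I x)).card : ℝ) else 0) =
        ∑ x ∈ univ.filter (fun x : Ch n m F W =>
          ∑ v ∈ univ.filter (fun v : Fin n × Fin m => v.2.val < m1),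
            γ (val (fine g) x0 (tab enc I) (R + 1) v + lam enc g x v) = a),
          ∏ j, ((QS P enc g x0 h T R (L j) (τ j) (act enc g x0 R I x)).card : ℝ) := by
      rw [sum_filter]
      refine sum_congr rfl fun x _ => ?_
      rw [hgout x]
    rw [e1]
    refine key.trans (add_le_add le_rfl (mul_le_mul_of_nonneg_right ?_ (Nat.cast_nonneg _)))
    have h6 : (1 / ((h : ℝ) / Fintype.card W)) ^ (2 * (w + 1) * (opn τ).card) ≤
        (1 / ((h : ℝ) / Fintype.card W)) ^ (2 * (w + 1) * n) :=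
      pow_le_pow_right₀ hr (Nat.mul_le_mul_left _ ((card_le_univ _).trans (le_of_eq (Fintype.card_fin n))))
    exact mul_le_mul_of_nonneg_left h6 (by positivity)
  · intro j x V hV u hu
    refine Pool.Agent.Helper98.BT.card_subs ?_
    obtain ⟨-, -, h3⟩ := mem_QS.1 hV
    have h4 : (τ j u).isSome := (mem_filter.1 hu).2 j
    obtain ⟨cc, hcc⟩ := Option.isSome_iff_exists.1 h4
    have h5 := Pool.Agent.Helper98.BT.miss_some ((h3 u).trans hcc)
    rw [Pool.Agent.Helper98.BT.val_act hcf _ le_rfl] at h5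
    have h6 : pos g (hh j) u = (g cc.1 u, cc.2) := by
      show (g ((τ j u).getD (⟨0, hD⟩, 0)).1 u, ((τ j u).getD (⟨0, hD⟩, 0)).2) = _
      rw [hcc]
      rfl
    rw [h6]
    exact h5
  · intro j x V hV x' hx'
    obtain ⟨⟨c, hc, hcV⟩, h2, h3⟩ := mem_QS.1 hV
    have hr : RunL P (act enc g x0 R I x') (L j) c := by
      refine Pool.Agent.Helper17.BT.runL_congr hc fun z hz => Pool.Agent.Helper98.BT.act_congr hcf _ _ z fun q hq => ?_
      by_contra hne
      obtain ⟨u, -, h4, h5⟩ := hx' q z.2 hne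
      have h6 := Pool.Agent.Helper98.BT.subs_subset _ _ h5
      unfold left at h6
      rw [mem_filter] at h6
      have h7 := h6.2
      rw [h4, hcell, hq, ← hcV, Pool.Agent.Helper98.BT.mem_free] at h7
      exact h7 hz
    refine mem_QS.2 ⟨⟨c, hr, hcV⟩, h2, fun v => ?_⟩
    rw [← h3 v]
    exact Pool.Agent.Helper98.BT.miss_congr (fun u => by
      rw [Pool.Agent.Helper98.BT.val_act hcf _ le_rfl, Pool.Agent.Helper98.BT.val_act hcf _ le_rfl]) _ v

end Pool.Agent.Helper70.BTN
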