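import Pool.Agent.Helper70.BTN.Frees
import Pool.Agent.Helper70.BTN.Cover
import Pool.Agent.Helper70.BTN.Bad
import Pool.Agent.Helper70.BTN.Type
import Pool.Agent.Helper70.BTN.Class
import Pool.Agent.Helper70.BTN.Avg
import Pool.Agent.Helper70.BTN.Numbers
import Pool.Agent.Helper89.BT.Coll
import Pool.Agent.Helper43.BT.Code

/-!
# BTN: programs with few computations which are never wrong
-/

set_option autoImplicit false
set_option linter.unusedSectionVars false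

namespace Pool.Agent.Helper70.BTN

open Finset Pool.Agent.Helper19.NF Pool.Agent.Helper74.NW Pool.Agent.Helper96.BT
open Pool.Agent.Helper74.NE (fine fine_apply)
open Pool.Agent.Helper99.NQ (pos)
open Pool.Agent.Helper96.PH (Det CB opn)
open Pool.Agent.Helper74.NS (Expands)
open Pool.Agent.Helper43.BT (evalCode mds_evalCode)

theorem few_one {C X Z : Type} {S : ℕ} {P : NProg C X Z S} {M : ℕ} (hM : Few P M) [Nonempty (C → X)] : 1 ≤ M := by
  obtain ⟨I⟩ := ‹Nonempty (C → X)›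
  refine le_trans ?_ (hM I P.start P.start 0)
  have h1 : {l : List C | l.length = 0 ∧ P.Run I P.start l P.start} = {[]} := by
    ext l
    rw [Set.mem_singleton_iff]
    constructor
    · intro h
      exact List.length_eq_zero_iff.1 h.1
    · intro h
      subst h
      exact ⟨rfl, NProg.Run.nil _⟩
  have h2 : Nat.card {l : List C // l.length = 0 ∧ P.Run I P.start l P.start} = 1 := by
    have h3 : Nat.card ({l : List C | l.length = 0 ∧ P.Run I P.start l P.start} : Set (List C)) = 1 := by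
      rw [h1]
      simp
    exact h3
  rw [h2]

section net

variable {n D m S : ℕ} [NeZero m] {F B W G Z : Type} [Field F] [Fintype F] [AddCommGroup B] [AddCommGroup W]
  [Module F W] [Fintype W] [Fintype B] (enc : W →+ (Fin D × Fin m → B))

theorem class_bound [AddCommGroup G] [Fintype G] {m1 M : ℕ} (hG : 2 ≤ Fintype.card G) (hE : Mds enc (D * m1))
    (hE4 : Mds enc (4 * D)) (hm1 : m1 ≤ m) (P : NProg (B × W) F Z S) (hM : Few P M) (hD : 0 < D)
    (g : Fin D → Equiv.Perm (Fin n)) (x0 : Fin n × Fin m → B) {h e T a R q q' d N : ℕ} (hX : Expands g a)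
    (ha : 1 ≤ a) (hh : 0 < h) (hL : h + 1 ≤ Fintype.card W) (he : e < m) (hq' : q ≤ 2 ^ q') (hR : q' + d ≤ R) (r : ℝ)
    (hr : 0 < r) (hrT : (T : ℝ) ≤ (1 - r) * Fintype.card (B × W))
    (hrh : (m * h + e * Fintype.card W : ℝ) ≤ m * Fintype.card W * r / 2)
    (γ : B → G) {E : ℝ} (hE0 : 0 ≤ E) (hN : N + 2 * a ≤ n)
    (hCB : ∀ p, N ≤ p → CB γ (Fin p × Fin m1) 3 E) {Θ : Type} [Fintype Θ]
    (L : Θ → Fin 2 → List (Fin S × ℕ × Fin S)) (y : Θ → G)
    (hLq : ∀ t j, (L t j).length ≤ q) (hLd : ∀ t j, ∀ p ∈ L t j, p.2.1 ≤ 2 ^ d)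
    (hy : ∀ t I, (∀ j, InC P T (L t j) (fun _ => True) I) → gout enc g x0 m1 R γ I = y t) :
    (Nat.card {I // CF (fine g) x0 R (tab enc I) ∧ ∃ t, ∀ j, InC P T (L t j) (fun _ => True) I} : ℝ) ≤
      ((M : ℝ) ^ (2 * q) * errA n D m a R S q d e r ((h : ℝ) / Fintype.card W) +
        Fintype.card Θ * (D * m + 1) ^ (2 * n) *
          (2 * (E * (M : ℝ) ^ (2 * q) * (1 / ((h : ℝ) / Fintype.card W)) ^ (4 * n)))) * Nat.card (B × W → F) := by
  classical
  have hM1 : 1 ≤ M := few_one hM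
  have hhL : h ≤ Fintype.card W := by omega
  refine class_bound_of enc P g x0 γ hG hN L y hLq hLd (by positivity) hy
    (bad_bound enc hE4 P hM g x0 h e T a R q q' d hX ha hh hL he hq' hR r hr hrT hrh) ?_
  intro L' τ z hL' hτ
  have h1 := type_bound enc hE hm1 P hD g x0 (h := h) (T := T) (R := R) (w := 1) hh hhL hE0 γ L' τ (M := M ^ q)
    (fun j I => (card_frees hM (L' j) I).trans (Nat.pow_le_pow_right hM1 (hL' j))) (hCB _ hτ) z
  have h2 : E * ((M ^ q : ℕ) : ℝ) ^ (1 + 1) * (1 / ((h : ℝ) / Fintype.card W)) ^ (2 * (1 + 1) * n) =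
      E * (M : ℝ) ^ (2 * q) * (1 / ((h : ℝ) / Fintype.card W)) ^ (4 * n) := by
    push_cast
    rw [← pow_mul]
    have h3 : q * (1 + 1) = 2 * q := by ring
    have h4 : 2 * (1 + 1) * n = 4 * n := by ring
    rw [h3, h4]
  rw [h2] at h1
  convert h1 using 2

theorem main_bound {m1 M : ℕ} (hE : Mds enc (D * m1)) (hE4 : Mds enc (4 * D)) (hm1 : m1 ≤ m)
    (P : NProg (B × W) F F S) (hM : Few P M) (hD : 0 < D) (g : Fin D → Equiv.Perm (Fin n)) (x0 : Fin n × Fin m → B)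
    (hx0 : Function.Injective x0)
    {h e T a R q q' d : ℕ} (hX : Expands g a) (ha : 1 ≤ a) (hh : 0 < h)
    (hL : h + 1 ≤ Fintype.card W) (he : e < m) (hq' : q ≤ 2 ^ q') (hR : q' + d ≤ R) (r : ℝ)
    (hr : 0 < r) (hrT : (T : ℝ) ≤ (1 - r) * Fintype.card (B × W))
    (hrh : (m * h + e * Fintype.card W : ℝ) ≤ m * Fintype.card W * r / 2) (hn : 2 * a ≤ n) {Θ : Type} [Fintype Θ]
    (L : Θ → Fin 2 → List (Fin S × ℕ × Fin S)) (y : Θ → F)
    (hLq : ∀ t j, (L t j).length ≤ q) (hLd : ∀ t j, ∀ p ∈ L t j, p.2.1 ≤ 2 ^ d)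
    (hy : ∀ t I, (∀ j, InC P T (L t j) (fun _ => True) I) → out enc g x0 m1 R I = y t) :
    (Nat.card {I // ∃ t, ∀ j, InC P T (L t j) (fun _ => True) I} : ℝ) ≤
      (((R + 1) * (n * m)) ^ 2 / Fintype.card B +
        Fintype.card F * 2 ^ 4 / Real.sqrt (Fintype.card B) +
        (M : ℝ) ^ (2 * q) * errA n D m a R S q d e r ((h : ℝ) / Fintype.card W) +
        Fintype.card Θ * (D * m + 1) ^ (2 * n) *
          (2 * ((Fintype.card B : ℝ) ^ (-((n - 2 * a : ℕ) * m1 : ℝ) / 2 ^ 5) * (M : ℝ) ^ (2 * q) *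
            (1 / ((h : ℝ) / Fintype.card W)) ^ (4 * n)))) * Nat.card (B × W → F) := by
  have hE2 : Mds enc (2 * D) := fun A hA z => hE4 A (hA.trans (by omega)) z
  refine main_bound_of enc P hM g x0 r L y hy ?_ (Pool.Agent.Helper89.BT.card_not_CF enc hE2 hD g x0 hx0 R)
  intro P' hP' γ E hE0 hCB hy'
  exact class_bound enc Fintype.one_lt_card hE hE4 hm1 P' hP' hD g x0 hX ha hh hL he hq' hR r hr hrT hrh γ hE0
    (by omega) hCB L y hLq hLd hy'

end net

/-- Clause (N): programs with few computations which are never wrong. -/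
theorem few_bound (s : ℕ) [NeZero s] (hs : 2 ^ 60 ≤ s) (g : Fin 15 → Equiv.Perm (Fin (8 * s ^ 20 * 2)))
    (hg : Expands g (s ^ 20)) (K : Type) [Field K] [Fintype K] [Algebra (ZMod 2) K]
    (ω : Fin 15 × Fin (s ^ 13) → K) (x0 : Fin (8 * s ^ 20 * 2) × Fin (s ^ 13) → K) (hk : s ^ 2000 ≤ Fintype.card K)
    (hω : Function.Injective ω) (hx0 : Function.Injective x0) (w S M : ℕ) (ε : ℝ)
    (P : NProg (K × (Fin 60 → K)) (ZMod 2) (ZMod 2) S) (hw : 2 ^ w ≤ s) (hε : 1 / s ≤ ε) (hε1 : ε ≤ 1)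
    (hS : S * M ≤ 2 ^ s) (hM : Few P M)
    (hr : ∀ I l z, P.Ends I l z → z = out (evalCode ω) g x0 1 (2 * s) I) :
    Nat.card {I : K × (Fin 60 → K) → ZMod 2 // ∃ l z, P.Ends I l z ∧ Rare ε w l} * s ≤
      Nat.card (K × (Fin 60 → K) → ZMod 2) := by
  classical
  have hs1 : 1 ≤ s := le_trans (by norm_num) hs
  have hsR : (1 : ℝ) ≤ s := by exact_mod_cast hs1
  have hs0 : (0 : ℝ) < s := by linarith
  set k := Fintype.card K with hkK
  have hL : Fintype.card (Fin 60 → K) = k ^ 60 := by rw [Fintype.card_fun, Fintype.card_fin]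
  have hN : Fintype.card (K × (Fin 60 → K)) = k * k ^ 60 := by rw [Fintype.card_prod, hL]
  have hmds : Mds (evalCode (j := 60) ω) 60 := mds_evalCode ω hω
  have hmds4 : Mds (evalCode (j := 60) ω) (4 * 15) := hmds
  have hmds1 : Mds (evalCode (j := 60) ω) (15 * 1) := fun A hA y => hmds A (hA.trans (by norm_num)) y
  have hM1 : 1 ≤ M := few_one hM
  have hS1 : 1 ≤ S := by
    have h1 : 0 < S := (Nat.zero_le _).trans_lt P.start.isLt
    exact h1
  have hε0 : 0 < ε := lt_of_lt_of_le (by positivity) hε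
  obtain ⟨L, hL'⟩ : ∃ L, L = k ^ 60 := ⟨_, rfl⟩
  obtain ⟨N, hN'⟩ : ∃ N, N = k * L := ⟨_, rfl⟩
  obtain ⟨T, hT⟩ : ∃ T, T = N - ⌊ε / (4 * 2 ^ w) * N⌋₊ := ⟨_, rfl⟩
  obtain ⟨h, hh⟩ : ∃ h, h = L / (20 * s ^ 2) := ⟨_, rfl⟩
  obtain ⟨e, he⟩ : ∃ e, e = s ^ 13 / (20 * s ^ 2) := ⟨_, rfl⟩
  obtain ⟨q, hq⟩ : ∃ q, q = s ^ 8 := ⟨_, rfl⟩
  obtain ⟨Q, hQ⟩ : ∃ Q, Q = (w + 1) * q + 1 := ⟨_, rfl⟩
  have hnum := fun t ht => numbers (s := s) (k := k) (w := w) (q := q) (T := T) (h := h) (e := e) (S := S) (M := M)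
    (L := L) (N := N) (t := t) (Q := Q) hs hk hw hε hε1 hL' hN' hT hq hh he hS1 hM1 hS hQ ht
  obtain ⟨n1, n2, n3, n4, n5, n6, n7, n8, -⟩ := hnum 0 (Nat.zero_le _)
  have hcN : Fintype.card (K × (Fin 60 → K)) = N := by rw [hN, hN', hL']
  have hcL : Fintype.card (Fin 60 → K) = L := by rw [hL, hL']
  have hSs : S ≤ 2 ^ s := le_trans (Nat.le_mul_of_pos_right _ hM1) hS
  obtain ⟨Θ, iΘ, L1, y, c1, c2, c3, c4, c5⟩ := cover P hSs (w := w) (q := q) (T := T) (ε := ε)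
    (θ := 1 / (4 * s : ℝ)) hε0 hε1 (by positivity) (by
      rw [div_lt_one (by positivity)]
      linarith) (by
      rw [hN, hq]
      have h1 : s ^ 8 ≤ k := (Nat.pow_le_pow_right hs1 (by norm_num)).trans hk
      have h2 : 1 ≤ k := (Nat.one_le_pow _ _ hs1).trans hk
      exact h1.trans (Nat.le_mul_of_pos_right _ (Nat.pow_pos h2))) (by rw [hcN]; exact n2) n1
  obtain ⟨-, -, -, -, -, -, -, -, n9⟩ := hnum (Fintype.card Θ) c1
  have hmb := main_bound (evalCode (j := 60) ω) (m1 := 1) (M := M) hmds1 hmds4 (Nat.one_le_pow _ _ hs1)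
    P hM (by norm_num) g x0 hx0 (h := h) (e := e) (T := T) (a := s ^ 20) (R := 2 * s) (q := Q) (q' := s) (d := s) hg
    (Nat.one_le_pow _ _ hs1) n4 (by rw [hcL]; exact n5) n6 n3 (by omega) (1 / (5 * s ^ 2)) (by positivity)
    (by rw [hcN]; exact n7) (by rw [hcL]; exact n8) (by
      have := Nat.one_le_pow 20 s hs1
      omega) L1 y (by rw [hQ]; exact c2) c3 (fun t I hI => by
        obtain ⟨l, hl⟩ := c4 t I hI
        exact (hr I l (y t) hl).symm)
  rw [hcL, ZMod.card, ← hkK] at hmb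
  set tot : ℝ := ((Nat.card (K × (Fin 60 → K) → ZMod 2) : ℕ) : ℝ) with htot
  have htot0 : 0 ≤ tot := Nat.cast_nonneg _
  have h9 := mul_le_mul_of_nonneg_right n9 htot0
  push_cast at hmb h9
  have h10 : (Nat.card {I : K × (Fin 60 → K) → ZMod 2 // ∃ l z, P.Ends I l z ∧ Rare ε w l} : ℝ) ≤
      Nat.card {I : K × (Fin 60 → K) → ZMod 2 // ∃ t, ∀ j, InC P T (L1 t j) (fun _ => True) I} := by
    exact_mod_cast Nat.card_le_card_of_injective
      (fun I : {I : K × (Fin 60 → K) → ZMod 2 // ∃ l z, P.Ends I l z ∧ Rare ε w l} =>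
        (⟨I.1, by
          obtain ⟨l, z, h1, h2⟩ := I.2
          exact c5 I.1 l z h1 h2⟩ : {I : K × (Fin 60 → K) → ZMod 2 // ∃ t, ∀ j, InC P T (L1 t j) (fun _ => True) I}))
      (fun I I' hI => Subtype.ext (Subtype.mk.inj hI))
  have h11 : (Nat.card {I : K × (Fin 60 → K) → ZMod 2 // ∃ l z, P.Ends I l z ∧ Rare ε w l} : ℝ) ≤ 1 / s * tot :=
    h10.trans (hmb.trans h9)
  have h12 : (Nat.card {I : K × (Fin 60 → K) → ZMod 2 // ∃ l z, P.Ends I l z ∧ Rare ε w l} : ℝ) * s ≤ tot := by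
    calc _ ≤ 1 / s * tot * s := mul_le_mul_of_nonneg_right h11 hs0.le
      _ = tot := by field_simp
  rw [htot] at h12
  exact_mod_cast h12

end Pool.Agent.Helper70.BTN
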