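import Pool.Agent.Helper70.BTN.Defs
import Pool.Agent.Helper17.BT.RunL
import Pool.Agent.Helper74.NS.Defs

/-!
# BTN: the number of the sets of unread symbols (NF0)
-/

set_option autoImplicit false
set_option linter.unusedSectionVars false

namespace Pool.Agent.Helper70.BTN

open Finset Pool.Agent.Helper19.NF Pool.Agent.Helper74.NW Pool.Agent.Helper96.BT
open Pool.Agent.Helper74.NE (fine fine_apply)
open Pool.Agent.Helper99.NQ (pos)
open Pool.Agent.Helper96.PH (Det CB opn)
open Pool.Agent.Helper74.NS (Expands)

variable {C X Z : Type} [Fintype C] {S : ℕ}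

/-- The lists of queries of the pieces `L`: there are at most `M ^ L.length` of them. -/
private theorem ncard_runL {P : NProg C X Z S} {M : ℕ} (hM : Few P M) (I : C → X)
    (L : List (Fin S × ℕ × Fin S)) :
    {c | RunL P I L c}.Finite ∧ {c | RunL P I L c}.ncard ≤ M ^ L.length := by
  induction L with
  | nil =>
    have h : {c | RunL P I [] c} ⊆ {[]} := fun c hc => Pool.Agent.Helper17.BT.runL_nil hc
    refine ⟨(Set.finite_singleton _).subset h, ?_⟩
    refine (Set.ncard_le_ncard h (Set.finite_singleton _)).trans ?_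
    simp
  | cons p L ih =>
    obtain ⟨hf, hc⟩ := ih
    have h1 : {l : List C | l.length = p.2.1 ∧ P.Run I p.1 l p.2.2}.Finite :=
      (List.finite_length_eq C p.2.1).subset fun l hl => hl.1
    have h2 : {l : List C | l.length = p.2.1 ∧ P.Run I p.1 l p.2.2}.ncard ≤ M := by
      have h3 := hM I p.1 p.2.2 p.2.1
      rwa [← Nat.card_coe_set_eq]
    have h4 : {c | RunL P I (p :: L) c} ⊆
        (fun q : List C × List C => q.1 ++ q.2) ''
          ({l : List C | l.length = p.2.1 ∧ P.Run I p.1 l p.2.2} ×ˢ {c | RunL P I L c}) := by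
      intro c hc
      obtain ⟨c1, c2, rfl, g1, g2, g3⟩ := Pool.Agent.Helper17.BT.runL_cons hc
      exact ⟨(c1, c2), ⟨⟨g2, g1⟩, g3⟩, rfl⟩
    have h5 := h1.prod hf
    refine ⟨(h5.image _).subset h4, ?_⟩
    refine (Set.ncard_le_ncard h4 (h5.image _)).trans ?_
    refine (Set.ncard_image_le h5).trans ?_
    rw [Set.ncard_prod, List.length_cons, pow_succ, mul_comm]
    exact Nat.mul_le_mul hc h2

/-- NF0: at most `M ^ L.length` sets of unread symbols. Injection: the list `c` is cut into the lists of the pieces;
`Nat.card {c // RunL P I L c} ≤ M ^ L.length` by induction on `L` (finiteness: the length of `c` is the sum of the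
lengths of the pieces). -/
theorem card_frees {P : NProg C X Z S} {M : ℕ} (hM : Few P M) (L : List (Fin S × ℕ × Fin S)) (I : C → X) :
    (frees P L I).card ≤ M ^ L.length := by
  classical
  obtain ⟨hf, hc⟩ := ncard_runL hM I L
  have h : frees P L I ⊆ hf.toFinset.image (fun c => free c) := by
    intro V hV
    obtain ⟨c, hr, rfl⟩ := mem_frees.1 hV
    exact Finset.mem_image.2 ⟨c, hf.mem_toFinset.2 hr, rfl⟩
  refine (Finset.card_le_card h).trans (Finset.card_image_le.trans ?_)
  rw [← Set.ncard_eq_toFinset_card _ hf]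
  exact hc

end Pool.Agent.Helper70.BTN
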