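import Pool.Agent.Helper70.BTN.Defs
import Pool.Agent.Helper74.NW.Basic
import Pool.Agent.Helper17.BT.Ends
import Pool.Agent.Helper74.NS.Defs

/-!
# BTN: loops are cut out (NF9)
-/

set_option autoImplicit false
set_option linter.unusedSectionVars false

namespace Pool.Agent.Helper70.BTN

open Finset Pool.Agent.Helper19.NF Pool.Agent.Helper74.NW Pool.Agent.Helper96.BT
open Pool.Agent.Helper74.NE (fine fine_apply)
open Pool.Agent.Helper99.NQ (pos)
open Pool.Agent.Helper96.PH (Det CB opn)
open Pool.Agent.Helper74.NS (Expands)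

/-- A run with at least `S` queries visits some state twice; the part in between is cut out. -/
theorem loops_step {C X Z : Type} {S : ℕ} {P : NProg C X Z S} {I : C → X} {s t : Fin S} {l : List C}
    (h : P.Run I s l t) (hS : S ≤ l.length) : ∃ l', l'.Sublist l ∧ l'.length < l.length ∧ P.Run I s l' t := by
  have h2 : ∀ m : Fin (S + 1), ∃ r, P.Run I s (l.take m) r ∧ P.Run I r (l.drop m) t :=
    fun m => run_split _ (by rw [List.take_append_drop]; exact h)
  choose f hf using h2
  obtain ⟨x, y, hxy, hfxy⟩ := Fintype.exists_ne_map_eq_of_card_lt f (by simp)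
  wlog hlt : x < y generalizing x y
  · exact this y x hxy.symm hfxy.symm (lt_of_le_of_ne (not_lt.mp hlt) hxy.symm)
  have h6 : (x : ℕ) < y := hlt
  have h5 := y.2
  refine ⟨l.take x ++ l.drop y, ?_, ?_, run_append (hf x).1 (by rw [hfxy]; exact (hf y).2)⟩
  · have h7 : (l.take x ++ l.drop y).Sublist (l.take x ++ l.drop x) :=
      (List.Sublist.refl _).append (List.drop_sublist_drop_left l h6.le)
    rwa [List.take_append_drop] at h7
  · rw [List.length_append, List.length_take, List.length_drop]
    omega

/-- NF9: the loops of a run can be cut out (induction; a state which is visited twice, `S` states). -/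
theorem cut_loops {C X Z : Type} {S : ℕ} {P : NProg C X Z S} {I : C → X} {s t : Fin S} {l : List C}
    (h : P.Run I s l t) : ∃ l', l'.Sublist l ∧ l'.length < S ∧ P.Run I s l' t := by
  obtain ⟨k, hk⟩ : ∃ k, k = l.length := ⟨_, rfl⟩
  induction k using Nat.strong_induction_on generalizing l with
  | _ k ih =>
    by_cases hS : l.length < S
    · exact ⟨l, List.Sublist.refl l, hS, h⟩
    · obtain ⟨l1, h1, h2, h3⟩ := loops_step h (not_lt.1 hS)
      obtain ⟨l2, h4, h5, h6⟩ := ih l1.length (hk ▸ h2) h3 rfl
      exact ⟨l2, h4.trans h1, h5, h6⟩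

end Pool.Agent.Helper70.BTN
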